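import Pool.Agent.H98.RSA.Core

/-!
# Random sequential adsorption (MP_eaa50a_pr): a checker for the probabilities in a finite cluster

Finite sets of vertices of the graph `N1 W` on the natural numbers (`x` is adjacent to `x + 1` and
`x + W`) are the sets of the bits of natural numbers.
-/

set_option autoImplicit false

open Finset

namespace Pool.Agent.H98.RSA

/-- the set of the bits -/
def F (m : ℕ) : Finset ℕ := (Finset.range (m + 1)).filter fun j => m.testBit j = true

theorem mem_F {m j : ℕ} : j ∈ F m ↔ m.testBit j = true := by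
  unfold F
  rw [Finset.mem_filter, Finset.mem_range]
  refine ⟨fun h => h.2, fun h => ⟨?_, h⟩⟩
  have h1 := Nat.ge_two_pow_of_testBit h
  have h2 : j < 2 ^ j := Nat.lt_two_pow_self
  omega

/-- the graph -/
def N1 (W x : ℕ) : Finset ℕ :=
  (Finset.range (x + W + 2)).filter fun y => y = x + 1 ∨ x = y + 1 ∨ y = x + W ∨ x = y + W

theorem mem_N1 {W x y : ℕ} : y ∈ N1 W x ↔ (y = x + 1 ∨ x = y + 1 ∨ y = x + W ∨ x = y + W) := by
  unfold N1
  rw [Finset.mem_filter, Finset.mem_range]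
  refine ⟨fun h => h.2, fun h => ⟨?_, h⟩⟩
  omega

theorem N1_sym (W x y : ℕ) (h : y ∈ N1 W x) : x ∈ N1 W y := by
  rw [mem_N1] at h ⊢
  omega

/-- the neighbours of a set -/
def ex (W m : ℕ) : ℕ := (m <<< 1) ||| (m >>> 1) ||| (m <<< W) ||| (m >>> W)

theorem mem_ex {W m j : ℕ} : j ∈ F (ex W m) ↔ ∃ x ∈ F m, j ∈ N1 W x := by
  unfold ex
  rw [mem_F]
  simp only [Nat.testBit_or, Nat.testBit_shiftLeft, Nat.testBit_shiftRight, Bool.or_eq_true,
    Bool.and_eq_true, decide_eq_true_eq, mem_N1, mem_F]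
  constructor
  · rintro (((⟨h1, h2⟩ | h) | ⟨h1, h2⟩) | h)
    · exact ⟨j - 1, h2, Or.inl (by omega)⟩
    · exact ⟨1 + j, h, Or.inr (Or.inl (by omega))⟩
    · exact ⟨j - W, h2, Or.inr (Or.inr (Or.inl (by omega)))⟩
    · exact ⟨W + j, h, Or.inr (Or.inr (Or.inr (by omega)))⟩
  · rintro ⟨x, hx, h | h | h | h⟩
    · left; left; left
      refine ⟨by omega, ?_⟩
      have : j - 1 = x := by omega
      rw [this]; exact hx
    · left; left; right
      have : 1 + j = x := by omega
      rw [this]; exact hx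
    · left; right
      refine ⟨by omega, ?_⟩
      have : j - W = x := by omega
      rw [this]; exact hx
    · right
      have : W + j = x := by omega
      rw [this]; exact hx

/-- `p` is the pattern of a closed neighbourhood with the centre `W` -/
def Pat (W p : ℕ) : Prop := ∀ i, p.testBit i = true ↔ (i = 0 ∨ i = W - 1 ∨ i = W ∨ i = W + 1 ∨ i = 2 * W)

/-- the closed neighbourhood of `x` -/
def cm (W p x : ℕ) : ℕ := (p <<< x) >>> W

theorem mem_cm {W p : ℕ} (hW : 2 ≤ W) (hp : Pat W p) (x j : ℕ) :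
    j ∈ F (cm W p x) ↔ j ∈ cn (N1 W) x := by
  unfold cm
  rw [mem_F, mem_cn, mem_N1, Nat.testBit_shiftRight, Nat.testBit_shiftLeft, Bool.and_eq_true,
    decide_eq_true_eq, hp]
  omega

/-- remove the closed neighbourhood of `x` -/
def rmv (W p K x : ℕ) : ℕ := K ^^^ (K &&& cm W p x)

theorem F_rmv {W p : ℕ} (hW : 2 ≤ W) (hp : Pat W p) (K x : ℕ) :
    F (rmv W p K x) = F K \ cn (N1 W) x := by
  ext j
  rw [Finset.mem_sdiff, ← mem_cm hW hp, mem_F, mem_F, mem_F]
  unfold rmv
  rw [Nat.testBit_xor, Nat.testBit_and]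
  cases K.testBit j <;> cases (cm W p x).testBit j <;> simp

theorem F_zero : F 0 = ∅ := by
  ext j
  rw [mem_F]
  simp

/-- remove the largest bit -/
theorem F_top {m : ℕ} (hm : m ≠ 0) :
    Nat.log2 m ∈ F m ∧ F (m ^^^ (1 <<< Nat.log2 m)) = (F m).erase (Nat.log2 m) := by
  have h1 : m.testBit (Nat.log2 m) = true := Nat.testBit_log2 hm
  refine ⟨mem_F.2 h1, ?_⟩
  ext j
  rw [Finset.mem_erase, mem_F, mem_F, Nat.testBit_xor, Nat.one_shiftLeft, Nat.testBit_two_pow]
  by_cases h : Nat.log2 m = j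
  · subst h
    rw [h1]
    simp
  · rw [decide_eq_false h]
    simp only [Bool.xor_false]
    constructor
    · intro h2
      exact ⟨fun h3 => h h3.symm, h2⟩
    · intro h2
      exact h2.2

theorem le_iff {a b : ℕ} (h : a &&& b = a) : F a ⊆ F b := by
  intro j hj
  rw [mem_F] at hj ⊢
  rw [← h, Nat.testBit_and, Bool.and_eq_true] at hj
  exact hj.2

theorem or_iff {a b : ℕ} (h : a ||| b = b) : F a ⊆ F b := by
  intro j hj
  rw [mem_F] at hj ⊢
  rw [← h, Nat.testBit_or, hj]
  rfl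

/-! ### The checker -/

/-- the parameters: width, pattern, slot size of the masks, centre, region, images -/
structure Par where
  W : ℕ
  p : ℕ
  B : ℕ
  o : ℕ
  R : ℕ
  G : ℕ
  img : ℕ → ℕ → ℕ

/-- the mask of the state `s` -/
def msk (P : Par) (M s : ℕ) : ℕ := (M >>> (P.B * s)) % 2 ^ P.B

/-- the value of the state `s` -/
def vl (A s : ℕ) : ℕ := (A >>> (32 * s)) % 2 ^ 32

/-- the component `T` of the centre in the set `C` -/
def okc (P : Par) (C T : ℕ) : Bool :=
  Nat.beq (T &&& C) T && Nat.beq ((ex P.W T &&& C) ||| T) T && Nat.beq ((T >>> P.o) % 2) 1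

/-- go over the bits of `rem` -/
def go (P : Par) (M A n K : ℕ) (fin : ℕ → ℕ → Bool) : ℕ → ℕ → ℕ → ℕ → ℕ → Bool
  | 0, rem, _, acc, c => Nat.beq rem 0 && fin acc c
  | f + 1, rem, T, acc, c =>
    bif Nat.beq rem 0 then fin acc c else
      Nat.blt (T % 2 ^ 16 / P.G) n &&
      okc P (rmv P.W P.p K (Nat.log2 rem)) (P.img (T % 2 ^ 16 % P.G) (msk P M (T % 2 ^ 16 / P.G))) &&
      go P M A n K fin f (rem ^^^ (1 <<< Nat.log2 rem)) (T >>> 16) (acc + vl A (T % 2 ^ 16 / P.G))
        (c + 1)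

theorem go_spec (P : Par) (hW : 2 ≤ P.W) (hp : Pat P.W P.p) (M A n K : ℕ) (fin : ℕ → ℕ → Bool) :
    ∀ (f rem T acc c : ℕ), F rem ⊆ F K → go P M A n K fin f rem T acc c = true →
      ∃ v : ℕ → ℕ, fin (acc + ∑ x ∈ F rem, v x) (c + (F rem).card) = true ∧
        ∀ x ∈ F rem, ∃ s < n, ∃ g, v x = vl A s ∧
          F (P.img g (msk P M s)) ⊆ F K \ cn (N1 P.W) x ∧
          (∀ y ∈ F (P.img g (msk P M s)), ∀ z ∈ F K \ cn (N1 P.W) x, z ∈ N1 P.W y →
            z ∈ F (P.img g (msk P M s))) ∧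
          P.o ∈ F (P.img g (msk P M s)) := by
  intro f
  induction f with
  | zero =>
    intro rem T acc c hrem h
    unfold go at h
    rw [Bool.and_eq_true] at h
    have h0 : rem = 0 := Nat.eq_of_beq_eq_true h.1
    subst h0
    refine ⟨fun _ => 0, ?_, ?_⟩
    · rw [F_zero]
      simpa using h.2
    · rw [F_zero]
      intro x hx
      exact absurd hx (Finset.notMem_empty x)
  | succ f ih =>
    intro rem T acc c hrem h
    unfold go at h
    by_cases h0 : rem = 0
    · subst h0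
      refine ⟨fun _ => 0, ?_, ?_⟩
      · rw [F_zero]
        simpa using h
      · rw [F_zero]
        intro x hx
        exact absurd hx (Finset.notMem_empty x)
    · have hb : Nat.beq rem 0 = false := by
        cases hb : Nat.beq rem 0
        · rfl
        · exact absurd (Nat.eq_of_beq_eq_true hb) h0
      rw [hb, cond_false, Bool.and_eq_true, Bool.and_eq_true] at h
      obtain ⟨⟨h1, h2⟩, h3⟩ := h
      obtain ⟨hx, hF⟩ := F_top h0
      obtain ⟨v, hv1, hv2⟩ := ih _ _ _ _ (by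
        rw [hF]
        exact (Finset.erase_subset _ _).trans hrem) h3
      refine ⟨fun x => if x = Nat.log2 rem then vl A (T % 2 ^ 16 / P.G) else v x, ?_, ?_⟩
      · rw [hF] at hv1
        have e1 : ∑ x ∈ F rem, (if x = Nat.log2 rem then vl A (T % 2 ^ 16 / P.G) else v x) =
            vl A (T % 2 ^ 16 / P.G) + ∑ x ∈ (F rem).erase (Nat.log2 rem), v x := by
          rw [← Finset.add_sum_erase _ _ hx, if_pos rfl]
          congr 1
          refine Finset.sum_congr rfl fun x hx => ?_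
          rw [if_neg (Finset.ne_of_mem_erase hx)]
        have e2 : (F rem).card = 1 + ((F rem).erase (Nat.log2 rem)).card := by
          rw [Finset.card_erase_of_mem hx]
          have := Finset.card_pos.2 ⟨_, hx⟩
          omega
        rw [e1, e2, ← add_assoc, ← add_assoc]
        exact hv1
      · intro x hxr
        by_cases he : x = Nat.log2 rem
        · subst he
          unfold okc at h2
          rw [Bool.and_eq_true, Bool.and_eq_true] at h2
          obtain ⟨⟨h4, h5⟩, h6⟩ := h2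
          have h4 := Nat.eq_of_beq_eq_true h4
          have h5 := Nat.eq_of_beq_eq_true h5
          have h6 := Nat.eq_of_beq_eq_true h6
          refine ⟨_, by simpa [Nat.blt_eq] using h1, T % 2 ^ 16 % P.G, if_pos rfl, ?_, ?_, ?_⟩
          · rw [← F_rmv hW hp]
            exact le_iff h4
          · intro y hy z hz hzy
            rw [← F_rmv hW hp] at hz
            refine or_iff h5 ?_
            rw [mem_F, Nat.testBit_and, Bool.and_eq_true]
            exact ⟨mem_F.1 (mem_ex.2 ⟨y, hy, hzy⟩), mem_F.1 hz⟩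
          · rw [mem_F]
            rw [Nat.testBit_eq_decide_div_mod_eq, decide_eq_true_eq, ← Nat.shiftRight_eq_div_pow]
            exact h6
        · obtain ⟨s, hs, g, hg, hrest⟩ := hv2 x (by rw [hF]; exact Finset.mem_erase.2 ⟨he, hxr⟩)
          exact ⟨s, hs, g, (if_neg he).trans hg, hrest⟩

/-- the number of the bits of `K` in the closed neighbourhood of `o` -/
def c5 (P : Par) (K : ℕ) : ℕ :=
  (K >>> P.o) % 2 + (K >>> (P.o + 1)) % 2 + (K >>> (P.o - 1)) % 2 + (K >>> (P.o + P.W)) % 2 +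
    (K >>> (P.o - P.W)) % 2

/-- check the state `s` with the targets `T` -/
def chk (P : Par) (M A n : ℕ) (cmp : ℕ → ℕ → ℕ → Bool) (s T : ℕ) : Bool :=
  Nat.beq ((msk P M s >>> P.o) % 2) 1 && Nat.beq (msk P M s &&& P.R) (msk P M s) &&
  go P M A n (msk P M s) (fun acc c => cmp (vl A s) acc (c + c5 P (msk P M s))) 128
    (rmv P.W P.p (msk P M s) P.o) T 0 0

theorem bit_sum (K j : ℕ) : (K >>> j) % 2 = if j ∈ F K then 1 else 0 := by
  have h0 : j ∈ F K ↔ K / 2 ^ j % 2 = 1 := by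
    rw [mem_F, Nat.testBit_eq_decide_div_mod_eq, decide_eq_true_eq]
  rw [Nat.shiftRight_eq_div_pow]
  by_cases h : K / 2 ^ j % 2 = 1
  · rw [if_pos (h0.2 h), h]
  · rw [if_neg (fun h1 => h (h0.1 h1))]
    omega

theorem card_split (P : Par) (hW : 2 ≤ P.W) (hp : Pat P.W P.p) (ho : P.W ≤ P.o) (K : ℕ) :
    (F K).card = (F (rmv P.W P.p K P.o)).card + c5 P K := by
  have h1 : (F K).card = (F K \ cn (N1 P.W) P.o).card + (F K ∩ cn (N1 P.W) P.o).card := by
    rw [Finset.card_sdiff_add_card_inter]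
  rw [h1, F_rmv hW hp]
  congr 1
  have h2 : cn (N1 P.W) P.o = {P.o, P.o + 1, P.o - 1, P.o + P.W, P.o - P.W} := by
    ext y
    rw [mem_cn, mem_N1]
    simp only [Finset.mem_insert, Finset.mem_singleton]
    omega
  have h3 : (F K ∩ cn (N1 P.W) P.o).card = ∑ y ∈ cn (N1 P.W) P.o, if y ∈ F K then 1 else 0 := by
    rw [Finset.inter_comm, ← Finset.filter_mem_eq_inter, Finset.card_filter]
  rw [h3, h2, Finset.sum_insert, Finset.sum_insert, Finset.sum_insert, Finset.sum_insert,
    Finset.sum_singleton]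
  · unfold c5
    rw [bit_sum, bit_sum, bit_sum, bit_sum, bit_sum]
    ring
  all_goals
    simp only [Finset.mem_insert, Finset.mem_singleton]
    omega

/-- the images are images under symmetries of the region -/
def Sym (P : Par) : Prop := ∀ g m : ℕ, F m ⊆ F P.R → P.o ∈ F m →
  occ (N1 P.W) (F (P.img g m)) P.o = occ (N1 P.W) (F m) P.o ∧ (F (P.img g m)).card = (F m).card

/-- a checked state: the recursion -/
theorem chk_spec (P : Par) (hW : 2 ≤ P.W) (hp : Pat P.W P.p) (ho : P.W ≤ P.o) (hS : Sym P)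
    (M A n : ℕ) (cmp : ℕ → ℕ → ℕ → Bool) (s T : ℕ)
    (hall : ∀ s < n, F (msk P M s) ⊆ F P.R ∧ P.o ∈ F (msk P M s))
    (h : chk P M A n cmp s T = true) :
    ∃ v : ℕ → ℕ, cmp (vl A s) (∑ x ∈ F (rmv P.W P.p (msk P M s) P.o), v x)
        (F (msk P M s)).card = true ∧
      (∀ x ∈ F (rmv P.W P.p (msk P M s) P.o), ∃ s' < n, v x = vl A s' ∧
        (F (msk P M s')).card < (F (msk P M s)).card ∧
        occ (N1 P.W) (F (msk P M s) \ cn (N1 P.W) x) P.o = occ (N1 P.W) (F (msk P M s')) P.o) ∧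
      occ (N1 P.W) (F (msk P M s)) P.o * (F (msk P M s)).card =
        1 + ∑ x ∈ F (rmv P.W P.p (msk P M s) P.o),
          occ (N1 P.W) (F (msk P M s) \ cn (N1 P.W) x) P.o := by
  unfold chk at h
  rw [Bool.and_eq_true, Bool.and_eq_true] at h
  obtain ⟨⟨h1, h2⟩, h3⟩ := h
  have hoK : P.o ∈ F (msk P M s) := by
    rw [mem_F, Nat.testBit_eq_decide_div_mod_eq, decide_eq_true_eq, ← Nat.shiftRight_eq_div_pow]
    exact Nat.eq_of_beq_eq_true h1
  obtain ⟨v, hv1, hv2⟩ := go_spec P hW hp M A n (msk P M s) _ _ _ _ _ _ (by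
    rw [F_rmv hW hp]
    exact Finset.sdiff_subset) h3
  refine ⟨v, ?_, ?_, ?_⟩
  · rw [card_split P hW hp ho]
    simpa using hv1
  · intro x hx
    have hxK : x ∈ F (msk P M s) := by
      rw [F_rmv hW hp] at hx
      exact (Finset.mem_sdiff.1 hx).1
    obtain ⟨s', hs', g, hvx, hsub, hcl, hog⟩ := hv2 x hx
    obtain ⟨hR, ho'⟩ := hall s' hs'
    obtain ⟨e1, e2⟩ := hS g (msk P M s') hR ho'
    refine ⟨s', hs', hvx, ?_, ?_⟩
    · rw [← e2]
      refine Finset.card_lt_card ((Finset.ssubset_iff_of_subset (hsub.trans Finset.sdiff_subset)).2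
        ⟨x, hxK, fun hmem => ?_⟩)
      have := hsub hmem
      rw [Finset.mem_sdiff] at this
      exact this.2 (mem_cn_self _ _)
    · rw [← e1]
      exact occ_comp (N1 P.W) (N1_sym P.W) hsub hcl hog
  · rw [occ_rec]
    have e3 : F (msk P M s) = F (rmv P.W P.p (msk P M s) P.o) ∪
        (F (msk P M s) ∩ cn (N1 P.W) P.o) := by
      rw [F_rmv hW hp, Finset.sdiff_union_inter]
    have e4 : Disjoint (F (rmv P.W P.p (msk P M s) P.o)) (F (msk P M s) ∩ cn (N1 P.W) P.o) := by
      rw [F_rmv hW hp]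
      exact Finset.disjoint_sdiff_inter _ _
    have e5 : ∑ x ∈ F (msk P M s), (if x = P.o then (1 : ℚ) else
        occ (N1 P.W) (F (msk P M s) \ cn (N1 P.W) x) P.o) =
        ∑ x ∈ F (rmv P.W P.p (msk P M s) P.o), (if x = P.o then (1 : ℚ) else
          occ (N1 P.W) (F (msk P M s) \ cn (N1 P.W) x) P.o) +
        ∑ x ∈ F (msk P M s) ∩ cn (N1 P.W) P.o, (if x = P.o then (1 : ℚ) else
          occ (N1 P.W) (F (msk P M s) \ cn (N1 P.W) x) P.o) := by
      have e6 := Finset.sum_union e4 (f := fun x => if x = P.o then (1 : ℚ) else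
        occ (N1 P.W) (F (msk P M s) \ cn (N1 P.W) x) P.o)
      rw [← e3] at e6
      exact e6
    rw [e5, add_comm]
    congr 1
    · rw [Finset.sum_eq_single P.o]
      · rw [if_pos rfl]
      · intro y hy hne
        rw [if_neg hne]
        refine occ_notMem _ fun hmem => ?_
        rw [Finset.mem_sdiff, mem_cn] at hmem
        rw [Finset.mem_inter, mem_cn] at hy
        rcases hy.2 with h4 | h4
        · exact hne h4
        · exact hmem.2 (Or.inr (N1_sym _ _ _ h4))
      · intro hno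
        exact absurd (Finset.mem_inter.2 ⟨hoK, mem_cn_self _ _⟩) hno
    · refine Finset.sum_congr rfl fun x hx => ?_
      rw [if_neg]
      rintro rfl
      rw [F_rmv hW hp, Finset.mem_sdiff] at hx
      exact hx.2 (mem_cn_self _ _)

/-- the scale of the values -/
def DD : ℕ := 2 ^ 30

/-- the test for lower bounds -/
def cl (a acc c : ℕ) : Bool := Nat.ble (a * c) (2 ^ 30 + acc)

/-- the test for upper bounds -/
def cu (a acc c : ℕ) : Bool := Nat.ble (2 ^ 30 + acc) (a * c)

theorem lower_sound (P : Par) (hW : 2 ≤ P.W) (hp : Pat P.W P.p) (ho : P.W ≤ P.o) (hS : Sym P)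
    (M A n : ℕ) (hall : ∀ s < n, F (msk P M s) ⊆ F P.R ∧ P.o ∈ F (msk P M s))
    (h : ∀ s < n, ∃ T, chk P M A n cl s T = true) :
    ∀ (k : ℕ), ∀ s < n, (F (msk P M s)).card = k →
      (vl A s : ℚ) ≤ 2 ^ 30 * occ (N1 P.W) (F (msk P M s)) P.o := by
  intro k
  induction k using Nat.strong_induction_on with
  | _ k ih =>
    intro s hs hk
    obtain ⟨T, hT⟩ := h s hs
    obtain ⟨v, h1, h2, h3⟩ := chk_spec P hW hp ho hS M A n cl s T hall hT
    have h4 : vl A s * (F (msk P M s)).card ≤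
        2 ^ 30 + ∑ x ∈ F (rmv P.W P.p (msk P M s) P.o), v x := Nat.le_of_ble_eq_true h1
    have h5 : (vl A s : ℚ) * (F (msk P M s)).card ≤
        2 ^ 30 + ∑ x ∈ F (rmv P.W P.p (msk P M s) P.o), (v x : ℚ) := by
      exact_mod_cast h4
    have h6 : ∑ x ∈ F (rmv P.W P.p (msk P M s) P.o), (v x : ℚ) ≤
        ∑ x ∈ F (rmv P.W P.p (msk P M s) P.o),
          2 ^ 30 * occ (N1 P.W) (F (msk P M s) \ cn (N1 P.W) x) P.o := by
      refine Finset.sum_le_sum fun x hx => ?_
      obtain ⟨s', hs', hv, hc, hocc⟩ := h2 x hx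
      rw [hv, hocc]
      exact ih _ (hk ▸ hc) s' hs' rfl
    have h7 : (0 : ℚ) < (F (msk P M s)).card := by
      exact_mod_cast Finset.card_pos.2 ⟨P.o, (hall s hs).2⟩
    rw [← Finset.mul_sum] at h6
    have h8 : (vl A s : ℚ) * (F (msk P M s)).card ≤
        (2 ^ 30 * occ (N1 P.W) (F (msk P M s)) P.o) * (F (msk P M s)).card := by
      rw [mul_assoc, h3]
      linarith
    exact le_of_mul_le_mul_right h8 h7

theorem upper_sound (P : Par) (hW : 2 ≤ P.W) (hp : Pat P.W P.p) (ho : P.W ≤ P.o) (hS : Sym P)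
    (M A n : ℕ) (hall : ∀ s < n, F (msk P M s) ⊆ F P.R ∧ P.o ∈ F (msk P M s))
    (h : ∀ s < n, ∃ T, chk P M A n cu s T = true) :
    ∀ (k : ℕ), ∀ s < n, (F (msk P M s)).card = k →
      2 ^ 30 * occ (N1 P.W) (F (msk P M s)) P.o ≤ (vl A s : ℚ) := by
  intro k
  induction k using Nat.strong_induction_on with
  | _ k ih =>
    intro s hs hk
    obtain ⟨T, hT⟩ := h s hs
    obtain ⟨v, h1, h2, h3⟩ := chk_spec P hW hp ho hS M A n cu s T hall hT
    have h4 : 2 ^ 30 + ∑ x ∈ F (rmv P.W P.p (msk P M s) P.o), v x ≤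
        vl A s * (F (msk P M s)).card := Nat.le_of_ble_eq_true h1
    have h5 : 2 ^ 30 + ∑ x ∈ F (rmv P.W P.p (msk P M s) P.o), (v x : ℚ) ≤
        (vl A s : ℚ) * (F (msk P M s)).card := by
      exact_mod_cast h4
    have h6 : ∑ x ∈ F (rmv P.W P.p (msk P M s) P.o),
          2 ^ 30 * occ (N1 P.W) (F (msk P M s) \ cn (N1 P.W) x) P.o ≤
        ∑ x ∈ F (rmv P.W P.p (msk P M s) P.o), (v x : ℚ) := by
      refine Finset.sum_le_sum fun x hx => ?_
      obtain ⟨s', hs', hv, hc, hocc⟩ := h2 x hx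
      rw [hv, hocc]
      exact ih _ (hk ▸ hc) s' hs' rfl
    have h7 : (0 : ℚ) < (F (msk P M s)).card := by
      exact_mod_cast Finset.card_pos.2 ⟨P.o, (hall s hs).2⟩
    rw [← Finset.mul_sum] at h6
    have h8 : (2 ^ 30 * occ (N1 P.W) (F (msk P M s)) P.o) * (F (msk P M s)).card ≤
        (vl A s : ℚ) * (F (msk P M s)).card := by
      rw [mul_assoc, h3]
      linarith
    exact le_of_mul_le_mul_right h8 h7

/-! ### Lists of blocks of states -/

/-- check the states `s0, …, s0 + c - 1`, the targets are in slots of `b` bits -/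
def blk (P : Par) (M A n : ℕ) (cmp : ℕ → ℕ → ℕ → Bool) (b TT s0 : ℕ) : ℕ → Bool
  | 0 => true
  | c + 1 => chk P M A n cmp (s0 + c) ((TT >>> (b * c)) % 2 ^ b) && blk P M A n cmp b TT s0 c

theorem blk_spec {P : Par} {M A n : ℕ} {cmp : ℕ → ℕ → ℕ → Bool} {b TT s0 : ℕ} :
    ∀ c, blk P M A n cmp b TT s0 c = true → ∀ j < c, ∃ T, chk P M A n cmp (s0 + j) T = true := by
  intro c
  induction c with
  | zero =>
    intro _ j hj
    exact absurd hj (Nat.not_lt_zero j)
  | succ c ih =>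
    intro h j hj
    unfold blk at h
    rw [Bool.and_eq_true] at h
    rcases Nat.lt_succ_iff_lt_or_eq.1 hj with h1 | h1
    · exact ih h.2 j h1
    · rw [h1]
      exact ⟨_, h.1⟩

/-- all blocks -/
def run (P : Par) (M A n : ℕ) (cmp : ℕ → ℕ → ℕ → Bool) : List (ℕ × ℕ × ℕ) → ℕ → ℕ → Bool
  | [], s0, s1 => Nat.beq s0 s1
  | (c, b, TT) :: l, s0, s1 => blk P M A n cmp b TT s0 c && run P M A n cmp l (s0 + c) s1

theorem run_spec {P : Par} {M A n : ℕ} {cmp : ℕ → ℕ → ℕ → Bool} : ∀ (l : List (ℕ × ℕ × ℕ))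
    (s0 s1 : ℕ), run P M A n cmp l s0 s1 = true → ∀ s, s0 ≤ s → s < s1 →
    ∃ T, chk P M A n cmp s T = true := by
  intro l
  induction l with
  | nil =>
    intro s0 s1 h s h1 h2
    unfold run at h
    have := Nat.eq_of_beq_eq_true h
    omega
  | cons q l ih =>
    intro s0 s1 h s h1 h2
    obtain ⟨c, b, TT⟩ := q
    unfold run at h
    rw [Bool.and_eq_true] at h
    by_cases h3 : s < s0 + c
    · obtain ⟨T, hT⟩ := blk_spec c h.1 (s - s0) (by omega)
      rw [Nat.add_sub_cancel' h1] at hT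
      exact ⟨T, hT⟩
    · exact ih _ _ h.2 s (by omega) h2

/-- a checked state lies in the region and contains the centre -/
theorem chk_base {P : Par} {M A n : ℕ} {cmp : ℕ → ℕ → ℕ → Bool} {s T : ℕ}
    (h : chk P M A n cmp s T = true) : F (msk P M s) ⊆ F P.R ∧ P.o ∈ F (msk P M s) := by
  unfold chk at h
  rw [Bool.and_eq_true, Bool.and_eq_true] at h
  obtain ⟨⟨h1, h2⟩, -⟩ := h
  refine ⟨le_iff (Nat.eq_of_beq_eq_true h2), ?_⟩
  rw [mem_F, Nat.testBit_eq_decide_div_mod_eq, decide_eq_true_eq, ← Nat.shiftRight_eq_div_pow]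
  exact Nat.eq_of_beq_eq_true h1

/-! ### Images: products of swaps -/

/-- one permutation of bits: `c` the fixed bits, `(m, s)`: swap the bits of `m` with those `s`
higher -/
def nw (c : ℕ) (l : List (ℕ × ℕ)) (m : ℕ) : ℕ :=
  match l with
  | [] => m &&& c
  | (M, s) :: l => nw c l m ||| ((m &&& M) <<< s) ||| ((m >>> s) &&& M)

/-- the sources of the bit `j` -/
def src (c : ℕ) (l : List (ℕ × ℕ)) (j : ℕ) : List ℕ :=
  match l with
  | [] => if c.testBit j then [j] else []
  | (M, s) :: l => src c l j ++ (if s ≤ j ∧ M.testBit (j - s) then [j - s] else []) ++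
      (if M.testBit j then [j + s] else [])

theorem mem_nw (c : ℕ) (m j : ℕ) : ∀ l : List (ℕ × ℕ),
    (j ∈ F (nw c l m) ↔ ∃ i ∈ src c l j, i ∈ F m) := by
  intro l
  induction l with
  | nil =>
    unfold nw src
    rw [mem_F, Nat.testBit_and, Bool.and_eq_true]
    by_cases h : c.testBit j
    · rw [if_pos h]
      simp [mem_F, h]
    · rw [if_neg h]
      simp [h]
  | cons q l ih =>
    obtain ⟨M, s⟩ := q
    unfold nw src
    rw [mem_F] at ih ⊢
    rw [Nat.testBit_or, Nat.testBit_or, Bool.or_eq_true, Bool.or_eq_true, ih,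
      Nat.testBit_shiftLeft, Nat.testBit_and, Nat.testBit_and, Nat.testBit_shiftRight]
    simp only [Bool.and_eq_true, decide_eq_true_eq, List.mem_append]
    constructor
    · rintro ((⟨i, h1, h2⟩ | ⟨h1, h2, h3⟩) | ⟨h1, h2⟩)
      · exact ⟨i, Or.inl (Or.inl h1), h2⟩
      · refine ⟨j - s, Or.inl (Or.inr ?_), mem_F.2 h2⟩
        rw [if_pos ⟨h1, h3⟩]
        exact List.mem_singleton_self _
      · refine ⟨j + s, Or.inr ?_, ?_⟩
        · rw [if_pos h2]
          exact List.mem_singleton_self _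
        · rw [mem_F, add_comm]
          exact h1
    · rintro ⟨i, (h1 | h1) | h1, h2⟩
      · exact Or.inl (Or.inl ⟨i, h1, h2⟩)
      · by_cases h3 : s ≤ j ∧ M.testBit (j - s) = true
        · rw [if_pos h3, List.mem_singleton] at h1
          rw [h1] at h2
          exact Or.inl (Or.inr ⟨h3.1, mem_F.1 h2, h3.2⟩)
        · rw [if_neg h3] at h1
          exact absurd h1 (List.not_mem_nil)
      · by_cases h3 : M.testBit j = true
        · rw [if_pos h3, List.mem_singleton] at h1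
          rw [h1, add_comm] at h2
          exact Or.inr ⟨mem_F.1 h2, h3⟩
        · rw [if_neg h3] at h1
          exact absurd h1 (List.not_mem_nil)

/-- the swaps are a symmetry of the region `R` with the centre `o` -/
theorem nw_sym {W R o : ℕ} {c : ℕ} {l : List (ℕ × ℕ)} (τ : ℕ → ℕ)
    (h1 : ∀ j, j ∉ F R → src c l j = []) (h2 : ∀ j ∈ F R, src c l j = [τ j])
    (h3 : ∀ j ∈ F R, τ j ∈ F R ∧ τ (τ j) = j) (h4 : τ o = o)
    (h5 : ∀ x ∈ F R, ∀ y ∈ F R, (τ y ∈ N1 W (τ x) ↔ y ∈ N1 W x)) (m : ℕ) (hm : F m ⊆ F R)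
    (hom : o ∈ F m) :
    F (nw c l m) ⊆ F R ∧ o ∈ F (nw c l m) ∧
    occ (N1 W) (F (nw c l m)) o = occ (N1 W) (F m) o ∧ (F (nw c l m)).card = (F m).card := by
  have h6 : F (nw c l m) = (F m).image τ := by
    ext j
    rw [mem_nw, Finset.mem_image]
    constructor
    · rintro ⟨i, hi, him⟩
      by_cases hj : j ∈ F R
      · rw [h2 j hj, List.mem_singleton] at hi
        refine ⟨i, him, ?_⟩
        rw [hi]
        exact (h3 j hj).2
      · rw [h1 j hj] at hi
        exact absurd hi (List.not_mem_nil)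
    · rintro ⟨i, him, rfl⟩
      have hi := hm him
      refine ⟨i, ?_, him⟩
      rw [h2 _ (h3 i hi).1, (h3 i hi).2]
      exact List.mem_singleton_self _
  have hinj : ∀ x ∈ F m, ∀ y ∈ F m, τ x = τ y → x = y := by
    intro x hx y hy h
    rw [← (h3 x (hm hx)).2, ← (h3 y (hm hy)).2, h]
  refine ⟨?_, ?_, ?_, ?_⟩
  · rw [h6]
    intro j hj
    obtain ⟨i, hi, rfl⟩ := Finset.mem_image.1 hj
    exact (h3 i (hm hi)).1
  · rw [h6]
    exact Finset.mem_image.2 ⟨o, hom, h4⟩
  · rw [h6]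
    have := occ_image (N1 W) (N1 W) τ hinj (fun x hx y hy => h5 x (hm hx) y (hm hy)) hom
    rwa [h4] at this
  · rw [h6]
    exact Finset.card_image_of_injOn fun x hx y hy h => hinj x hx y hy h

end Pool.Agent.H98.RSA
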