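import Pool.Agent.H98.RSA.Defs

/-!
# Random sequential adsorption: the recursion, parity monotonicity, components, isomorphisms
-/

set_option autoImplicit false

open Finset

namespace Pool.Agent.H98.RSA

variable {V : Type} [DecidableEq V]

theorem mem_cn_self (N : V → Finset V) (x : V) : x ∈ cn N x := by simp [cn]

theorem mem_cn {N : V → Finset V} {x y : V} : y ∈ cn N x ↔ y = x ∨ y ∈ N x := by simp [cn]

/-- the recursion over the first occupied vertex -/
theorem occ_rec (N : V → Finset V) (A : Finset V) (v : V) :
    occ N A v * A.card = ∑ x ∈ A, if x = v then 1 else occ N (A \ cn N x) v := by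
  rcases A.eq_empty_or_nonempty with rfl | hA
  · simp
  · rw [occ, ← Finset.sum_attach A (fun x => if x = v then 1 else occ N (A \ cn N x) v)]
    have : (A.card : ℚ) ≠ 0 := by exact_mod_cast hA.card_pos.ne'
    field_simp

theorem occ_nonneg (N : V → Finset V) : ∀ (n : ℕ) (A : Finset V), A.card = n → ∀ v, 0 ≤ occ N A v := by
  intro n
  induction n using Nat.strong_induction_on with
  | _ n ih =>
    intro A hA v
    rw [occ]
    refine div_nonneg (Finset.sum_nonneg fun x _ => ?_) (by positivity)
    split_ifs
    · exact zero_le_one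
    · exact ih _ (hA ▸ card_sdiff_cn_lt N x.2) _ rfl v

theorem occ_nonneg' (N : V → Finset V) (A : Finset V) (v : V) : 0 ≤ occ N A v :=
  occ_nonneg N _ A rfl v

theorem occ_le_one (N : V → Finset V) : ∀ (n : ℕ) (A : Finset V), A.card = n → ∀ v, occ N A v ≤ 1 := by
  intro n
  induction n using Nat.strong_induction_on with
  | _ n ih =>
    intro A hA v
    rcases A.eq_empty_or_nonempty with rfl | hne
    · rw [occ]; simp
    · have h0 : (0 : ℚ) < A.card := by exact_mod_cast hne.card_pos
      have h1 := occ_rec N A v
      have h2 : ∑ x ∈ A, (if x = v then 1 else occ N (A \ cn N x) v) ≤ ∑ x ∈ A, (1 : ℚ) := by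
        refine Finset.sum_le_sum fun x hx => ?_
        split_ifs
        · exact le_refl _
        · exact ih _ (hA ▸ card_sdiff_cn_lt N hx) _ rfl v
      rw [Finset.sum_const, nsmul_eq_mul, mul_one, ← h1] at h2
      exact le_of_mul_le_mul_right (by linarith) h0

theorem occ_le_one' (N : V → Finset V) (A : Finset V) (v : V) : occ N A v ≤ 1 :=
  occ_le_one N _ A rfl v

theorem occ_of_notMem (N : V → Finset V) : ∀ (n : ℕ) (A : Finset V), A.card = n → ∀ v, v ∉ A →
    occ N A v = 0 := by
  intro n
  induction n using Nat.strong_induction_on with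
  | _ n ih =>
    intro A hA v hv
    rw [occ, Finset.sum_eq_zero, zero_div]
    intro x _
    rw [if_neg (fun h => hv (by rw [← h]; exact x.2))]
    exact ih _ (hA ▸ card_sdiff_cn_lt N x.2) _ rfl v (fun h => hv (Finset.mem_sdiff.1 h).1)

theorem occ_notMem (N : V → Finset V) {A : Finset V} {v : V} (hv : v ∉ A) : occ N A v = 0 :=
  occ_of_notMem N _ A rfl v hv

/-- one step of the process in the larger set `U` -/
noncomputable def st (N : V → Finset V) (A : Finset V) (v x : V) : ℚ :=
  if x ∈ A then (if x = v then 1 else occ N (A \ cn N x) v) else occ N A v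

theorem occ_step (N : V → Finset V) {A U : Finset V} (hAU : A ⊆ U) (v : V) :
    occ N A v * U.card = ∑ x ∈ U, st N A v x := by
  have h1 : ∑ x ∈ U, st N A v x = ∑ x ∈ A, st N A v x + ∑ x ∈ U \ A, st N A v x := by
    rw [add_comm, Finset.sum_sdiff hAU]
  have h2 : ∑ x ∈ A, st N A v x = occ N A v * A.card := by
    rw [occ_rec]
    exact Finset.sum_congr rfl fun x hx => by rw [st, if_pos hx]
  have h3 : ∑ x ∈ U \ A, st N A v x = occ N A v * (U \ A).card := by
    rw [Finset.sum_congr rfl (g := fun _ => occ N A v)
      (fun x hx => by rw [st, if_neg (Finset.mem_sdiff.1 hx).2]),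
      Finset.sum_const, nsmul_eq_mul, mul_comm]
  have h4 : (U.card : ℚ) = A.card + (U \ A).card := by
    have := Finset.card_sdiff_add_card_eq_card hAU
    rw [← this]
    push_cast
    ring
  rw [h1, h2, h3, h4]
  ring

theorem st_nonneg (N : V → Finset V) (A : Finset V) (v x : V) : 0 ≤ st N A v x := by
  unfold st
  split_ifs
  · exact zero_le_one
  · exact occ_nonneg' _ _ _
  · exact occ_nonneg' _ _ _

theorem st_le_one (N : V → Finset V) (A : Finset V) (v x : V) : st N A v x ≤ 1 := by
  unfold st
  split_ifs
  · exact le_refl _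
  · exact occ_le_one' _ _ _
  · exact occ_le_one' _ _ _

/-- PARITY MONOTONICITY: `par` is a proper two-colouring. Fewer vertices of the parity of `v` and
more vertices of the other parity make `v` less likely to be occupied. -/
theorem occ_mono_aux (N : V → Finset V) (par : V → Prop) (hbip : ∀ x, ∀ y ∈ N x, (par y ↔ ¬ par x)) :
    ∀ (n : ℕ) (S T : Finset V), (S ∪ T).card = n → ∀ v, par v →
      (∀ x, par x → x ∈ S → x ∈ T) → (∀ x, ¬ par x → x ∈ T → x ∈ S) → occ N S v ≤ occ N T v := by
  intro n
  induction n using Nat.strong_induction_on with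
  | _ n ih =>
    intro S T hn v hv hS hT
    rcases (S ∪ T).eq_empty_or_nonempty with he | hne
    · have h1 : v ∉ S := fun h => by
        have : v ∈ S ∪ T := Finset.mem_union_left _ h
        rw [he] at this
        exact absurd this (Finset.notMem_empty _)
      rw [occ_notMem N h1]
      exact occ_nonneg' _ _ _
    · have h0 : (0 : ℚ) < (S ∪ T).card := by exact_mod_cast hne.card_pos
      have hs := occ_step N (A := S) (U := S ∪ T) Finset.subset_union_left v
      have ht := occ_step N (A := T) (U := S ∪ T) Finset.subset_union_right v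
      have key : ∀ S' T' : Finset V, ∀ x ∈ S ∪ T, S' ⊆ S → T' ⊆ T → x ∉ S' → x ∉ T' →
          (S' ∪ T').card < n := by
        intro S' T' x hx h1 h2 h3 h4
        rw [← hn]
        refine Finset.card_lt_card ?_
        rw [Finset.ssubset_iff_of_subset (Finset.union_subset_union h1 h2)]
        exact ⟨x, hx, by rw [Finset.mem_union]; tauto⟩
      have hle : ∑ x ∈ S ∪ T, st N S v x ≤ ∑ x ∈ S ∪ T, st N T v x := by
        refine Finset.sum_le_sum fun x hx => ?_
        by_cases hxp : par x
        · by_cases hxS : x ∈ S
          · have hxT := hS x hxp hxS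
            rw [st, st, if_pos hxS, if_pos hxT]
            by_cases hxv : x = v
            · rw [if_pos hxv, if_pos hxv]
            · rw [if_neg hxv, if_neg hxv]
              refine ih _ (key _ _ x hx Finset.sdiff_subset Finset.sdiff_subset
                (by simp [cn]) (by simp [cn])) _ _ rfl v hv ?_ ?_
              · intro y hy hyS
                rw [Finset.mem_sdiff, mem_cn] at hyS ⊢
                exact ⟨hS y hy hyS.1, hyS.2⟩
              · intro y hy hyT
                rw [Finset.mem_sdiff] at hyT ⊢
                exact ⟨hT y hy hyT.1, hyT.2⟩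
          · have hxT : x ∈ T := by
              rw [Finset.mem_union] at hx
              tauto
            rw [st, st, if_neg hxS, if_pos hxT]
            by_cases hxv : x = v
            · rw [if_pos hxv]
              exact occ_le_one' _ _ _
            · rw [if_neg hxv]
              refine ih _ (key _ _ x hx (Finset.Subset.refl _) Finset.sdiff_subset
                hxS (by simp [cn])) _ _ rfl v hv ?_ ?_
              · intro y hy hyS
                rw [Finset.mem_sdiff, mem_cn]
                refine ⟨hS y hy hyS, ?_⟩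
                rintro (rfl | h)
                · exact hxS hyS
                · exact ((hbip x y h).1 hy) hxp
              · intro y hy hyT
                exact hT y hy (Finset.mem_sdiff.1 hyT).1
        · have hxv : x ≠ v := fun h => hxp (h ▸ hv)
          by_cases hxT : x ∈ T
          · have hxS := hT x hxp hxT
            rw [st, st, if_pos hxS, if_pos hxT, if_neg hxv, if_neg hxv]
            refine ih _ (key _ _ x hx Finset.sdiff_subset Finset.sdiff_subset
                (by simp [cn]) (by simp [cn])) _ _ rfl v hv ?_ ?_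
            · intro y hy hyS
              rw [Finset.mem_sdiff] at hyS ⊢
              exact ⟨hS y hy hyS.1, hyS.2⟩
            · intro y hy hyT
              rw [Finset.mem_sdiff] at hyT ⊢
              exact ⟨hT y hy hyT.1, hyT.2⟩
          · have hxS : x ∈ S := by
              rw [Finset.mem_union] at hx
              tauto
            rw [st, st, if_pos hxS, if_neg hxT, if_neg hxv]
            refine ih _ (key _ _ x hx Finset.sdiff_subset (Finset.Subset.refl _)
                (by simp [cn]) hxT) _ _ rfl v hv ?_ ?_
            · intro y hy hyS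
              exact hS y hy (Finset.mem_sdiff.1 hyS).1
            · intro y hy hyT
              rw [Finset.mem_sdiff, mem_cn]
              refine ⟨hT y hy hyT, ?_⟩
              rintro (rfl | h)
              · exact hxT hyT
              · exact hy ((hbip x y h).2 hxp)
      rw [← hs, ← ht] at hle
      exact le_of_mul_le_mul_right hle h0

theorem occ_mono (N : V → Finset V) (par : V → Prop) (hbip : ∀ x, ∀ y ∈ N x, (par y ↔ ¬ par x))
    {S T : Finset V} {v : V} (hv : par v)
    (hS : ∀ x, par x → x ∈ S → x ∈ T) (hT : ∀ x, ¬ par x → x ∈ T → x ∈ S) :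
    occ N S v ≤ occ N T v :=
  occ_mono_aux N par hbip _ S T rfl v hv hS hT

/-- the vertices outside the component of `v` do not matter -/
theorem occ_comp_aux (N : V → Finset V) (hsym : ∀ x y, y ∈ N x → x ∈ N y) :
    ∀ (n : ℕ) (A B : Finset V), A.card = n → B ⊆ A → (∀ x ∈ B, ∀ y ∈ A, y ∈ N x → y ∈ B) →
      ∀ v ∈ B, occ N A v = occ N B v := by
  intro n
  induction n using Nat.strong_induction_on with
  | _ n ih =>
    intro A B hn hBA hcl v hv
    have h0 : (A.card : ℚ) ≠ 0 := by
      have : A.Nonempty := ⟨v, hBA hv⟩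
      exact_mod_cast this.card_pos.ne'
    have hs := occ_step N (A := A) (U := A) (Finset.Subset.refl _) v
    have ht := occ_step N (A := B) (U := A) hBA v
    have hle : ∑ x ∈ A, st N A v x = ∑ x ∈ A, st N B v x := by
      refine Finset.sum_congr rfl fun x hx => ?_
      rw [st, if_pos hx]
      by_cases hxB : x ∈ B
      · rw [st, if_pos hxB]
        by_cases hxv : x = v
        · rw [if_pos hxv, if_pos hxv]
        · rw [if_neg hxv, if_neg hxv]
          by_cases hv2 : v ∈ B \ cn N x
          · refine ih _ (hn ▸ card_sdiff_cn_lt N hx) _ _ rfl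
              (Finset.sdiff_subset_sdiff hBA (Finset.Subset.refl _)) ?_ v hv2
            intro y hy z hz hzy
            rw [Finset.mem_sdiff] at hy hz ⊢
            exact ⟨hcl y hy.1 z hz.1 hzy, hz.2⟩
          · have hv3 : v ∉ A \ cn N x := by
              intro h
              rw [Finset.mem_sdiff] at h hv2
              exact hv2 ⟨hv, h.2⟩
            rw [occ_notMem N hv2, occ_notMem N hv3]
      · have hxv : x ≠ v := fun h => hxB (h ▸ hv)
        rw [st, if_neg hxB, if_neg hxv]
        refine ih _ (hn ▸ card_sdiff_cn_lt N hx) _ _ rfl ?_ ?_ v hv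
        · intro y hy
          rw [Finset.mem_sdiff, mem_cn]
          refine ⟨hBA hy, ?_⟩
          rintro (rfl | h)
          · exact hxB hy
          · exact hxB (hcl y hy x hx (hsym x y h))
        · intro y hy z hz hzy
          exact hcl y hy z (Finset.mem_sdiff.1 hz).1 hzy
    rw [← hs, ← ht] at hle
    exact mul_right_cancel₀ h0 hle

theorem occ_comp (N : V → Finset V) (hsym : ∀ x y, y ∈ N x → x ∈ N y) {A B : Finset V}
    (hBA : B ⊆ A) (hcl : ∀ x ∈ B, ∀ y ∈ A, y ∈ N x → y ∈ B) {v : V} (hv : v ∈ B) :
    occ N A v = occ N B v :=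
  occ_comp_aux N hsym _ A B rfl hBA hcl v hv

/-- LOWER BRACKET: if all vertices of `A` outside `C` which are adjacent to `C` have the parity of
`v`, the probability in `C` is at most that in `A`. -/
theorem occ_lower (N : V → Finset V) (hsym : ∀ x y, y ∈ N x → x ∈ N y) (par : V → Prop)
    (hbip : ∀ x, ∀ y ∈ N x, (par y ↔ ¬ par x)) {A C : Finset V} (hCA : C ⊆ A) {v : V}
    (hv : par v) (hout : ∀ x ∈ C, ∀ y ∈ A, y ∈ N x → y ∉ C → par y) :
    occ N C v ≤ occ N A v := by
  classical
  by_cases hvC : v ∈ C
  · obtain ⟨B, hB⟩ : ∃ B : Finset V, B = A.filter fun y => y ∈ C ∨ ∀ x ∈ C, y ∉ N x := ⟨_, rfl⟩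
    have hCB : C ⊆ B := by
      intro y hy
      rw [hB, Finset.mem_filter]
      exact ⟨hCA hy, Or.inl hy⟩
    have h1 : occ N B v = occ N C v := by
      refine occ_comp N hsym hCB ?_ hvC
      intro x hx y hy hyx
      rw [hB, Finset.mem_filter] at hy
      rcases hy.2 with h | h
      · exact h
      · exact absurd hyx (h x hx)
    rw [← h1]
    refine occ_mono N par hbip hv ?_ ?_
    · intro x _ hx
      rw [hB, Finset.mem_filter] at hx
      exact hx.1
    · intro y hy hyA
      rw [hB, Finset.mem_filter]
      refine ⟨hyA, ?_⟩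
      by_contra hcon
      rw [not_or] at hcon
      obtain ⟨h2, h3⟩ := hcon
      rw [not_forall] at h3
      obtain ⟨x, h3⟩ := h3
      rw [not_forall] at h3
      obtain ⟨hx, h3⟩ := h3
      rw [not_not] at h3
      exact hy (hout x hx y hyA h3 h2)
  · rw [occ_notMem N hvC]
    exact occ_nonneg' _ _ _

/-- UPPER BRACKET -/
theorem occ_upper (N : V → Finset V) (hsym : ∀ x y, y ∈ N x → x ∈ N y) (par : V → Prop)
    (hbip : ∀ x, ∀ y ∈ N x, (par y ↔ ¬ par x)) {A C : Finset V} (hCA : C ⊆ A) {v : V}
    (hv : par v) (hvC : v ∈ A → v ∈ C) (hout : ∀ x ∈ C, ∀ y ∈ A, y ∈ N x → y ∉ C → ¬ par y) :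
    occ N A v ≤ occ N C v := by
  classical
  by_cases hvA : v ∈ A
  · have hvC := hvC hvA
    obtain ⟨B, hB⟩ : ∃ B : Finset V, B = A.filter fun y => y ∈ C ∨ ∀ x ∈ C, y ∉ N x := ⟨_, rfl⟩
    have hCB : C ⊆ B := by
      intro y hy
      rw [hB, Finset.mem_filter]
      exact ⟨hCA hy, Or.inl hy⟩
    have h1 : occ N B v = occ N C v := by
      refine occ_comp N hsym hCB ?_ hvC
      intro x hx y hy hyx
      rw [hB, Finset.mem_filter] at hy
      rcases hy.2 with h | h
      · exact h
      · exact absurd hyx (h x hx)
    rw [← h1]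
    refine occ_mono N par hbip hv ?_ ?_
    · intro y hy hyA
      rw [hB, Finset.mem_filter]
      refine ⟨hyA, ?_⟩
      by_contra hcon
      rw [not_or] at hcon
      obtain ⟨h2, h3⟩ := hcon
      rw [not_forall] at h3
      obtain ⟨x, h3⟩ := h3
      rw [not_forall] at h3
      obtain ⟨hx, h3⟩ := h3
      rw [not_not] at h3
      exact hout x hx y hyA h3 h2 hy
    · intro x _ hx
      rw [hB, Finset.mem_filter] at hx
      exact hx.1
  · rw [occ_notMem N hvA]
    exact occ_nonneg' _ _ _

/-- isomorphisms -/
theorem occ_image_aux {W : Type} [DecidableEq W] (N : V → Finset V) (N' : W → Finset W)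
    (φ : V → W) : ∀ (n : ℕ) (A : Finset V), A.card = n →
      (∀ x ∈ A, ∀ y ∈ A, φ x = φ y → x = y) →
      (∀ x ∈ A, ∀ y ∈ A, (φ y ∈ N' (φ x) ↔ y ∈ N x)) → ∀ v ∈ A,
      occ N' (A.image φ) (φ v) = occ N A v := by
  intro n
  induction n using Nat.strong_induction_on with
  | _ n ih =>
    intro A hn hinj hadj v hv
    have h0 : (A.card : ℚ) ≠ 0 := by
      have : A.Nonempty := ⟨v, hv⟩
      exact_mod_cast this.card_pos.ne'
    have hcard : (A.image φ).card = A.card := Finset.card_image_of_injOn hinj
    have h1 := occ_rec N A v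
    have h2 := occ_rec N' (A.image φ) (φ v)
    rw [hcard, Finset.sum_image hinj] at h2
    have h3 : ∑ x ∈ A, (if φ x = φ v then 1 else occ N' (A.image φ \ cn N' (φ x)) (φ v)) =
        ∑ x ∈ A, if x = v then 1 else occ N (A \ cn N x) v := by
      refine Finset.sum_congr rfl fun x hx => ?_
      by_cases hxv : x = v
      · rw [if_pos hxv, if_pos (congrArg φ hxv)]
      · rw [if_neg hxv, if_neg (fun h => hxv (hinj x hx v hv h))]
        have h4 : A.image φ \ cn N' (φ x) = (A \ cn N x).image φ := by
          ext w
          rw [Finset.mem_sdiff, Finset.mem_image, Finset.mem_image]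
          constructor
          · rintro ⟨⟨y, hy, rfl⟩, hw⟩
            refine ⟨y, ?_, rfl⟩
            rw [Finset.mem_sdiff]
            refine ⟨hy, fun hc => hw ?_⟩
            rw [mem_cn] at hc ⊢
            rcases hc with rfl | hc
            · exact Or.inl rfl
            · exact Or.inr ((hadj x hx y hy).2 hc)
          · rintro ⟨y, hy, rfl⟩
            rw [Finset.mem_sdiff] at hy
            refine ⟨⟨y, hy.1, rfl⟩, fun hc => hy.2 ?_⟩
            rw [mem_cn] at hc ⊢
            rcases hc with hc | hc
            · exact Or.inl (hinj y hy.1 x hx hc)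
            · exact Or.inr ((hadj x hx y hy.1).1 hc)
        rw [h4]
        by_cases hv2 : v ∈ A \ cn N x
        · refine ih _ (hn ▸ card_sdiff_cn_lt N hx) _ rfl ?_ ?_ v hv2
          · intro y hy z hz
            exact hinj y (Finset.mem_sdiff.1 hy).1 z (Finset.mem_sdiff.1 hz).1
          · intro y hy z hz
            exact hadj y (Finset.mem_sdiff.1 hy).1 z (Finset.mem_sdiff.1 hz).1
        · have hv3 : φ v ∉ (A \ cn N x).image φ := by
            intro h
            rw [Finset.mem_image] at h
            obtain ⟨y, hy, hyv⟩ := h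
            have := hinj y (Finset.mem_sdiff.1 hy).1 v hv hyv
            rw [this] at hy
            exact hv2 hy
          rw [occ_notMem N hv2, occ_notMem N' hv3]
    rw [h3, ← h1] at h2
    exact mul_right_cancel₀ h0 h2

theorem occ_image {W : Type} [DecidableEq W] (N : V → Finset V) (N' : W → Finset W)
    (φ : V → W) {A : Finset V} (hinj : ∀ x ∈ A, ∀ y ∈ A, φ x = φ y → x = y)
    (hadj : ∀ x ∈ A, ∀ y ∈ A, (φ y ∈ N' (φ x) ↔ y ∈ N x)) {v : V} (hv : v ∈ A) :
    occ N' (A.image φ) (φ v) = occ N A v :=
  occ_image_aux N N' φ _ A rfl hinj hadj v hv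

end Pool.Agent.H98.RSA
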