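import Mathlib

/-!
# Random sequential adsorption with nearest-neighbour exclusion: definitions (MP_eaa50a_pr)
-/

set_option autoImplicit false

open Finset

namespace Pool.Agent.H98.RSA

/-- closed neighbourhood -/
def cn {V : Type} [DecidableEq V] (N : V → Finset V) (x : V) : Finset V := insert x (N x)

theorem card_sdiff_cn_lt {V : Type} [DecidableEq V] (N : V → Finset V) {A : Finset V} {x : V}
    (hx : x ∈ A) : (A \ cn N x).card < A.card :=
  Finset.card_lt_card (by
    rw [Finset.ssubset_iff_of_subset Finset.sdiff_subset]
    exact ⟨x, hx, by simp [cn]⟩)

/-- The law of the final occupied set of random sequential adsorption with nearest-neighbour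
exclusion, started when `A` is the set of available vertices: a uniformly random available vertex
`x` is occupied, then the vertices of `A` outside the closed neighbourhood of `x` are available;
the process stops when no vertex is available. `N x` is the set of neighbours of `x`. -/
noncomputable def jam {V : Type} [DecidableEq V] (N : V → Finset V) (A : Finset V) :
    PMF (Finset V) :=
  if h : A.Nonempty then
    (PMF.uniformOfFinset A h).bind fun x =>
      if _hx : x ∈ A then (jam N (A \ cn N x)).map (insert x) else PMF.pure ∅
  else PMF.pure ∅
termination_by A.card
decreasing_by exact card_sdiff_cn_lt N _hx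

/-- The mean number of occupied vertices in the jammed state. -/
noncomputable def meanSize {V : Type} [DecidableEq V] (N : V → Finset V) (A : Finset V) : ℝ :=
  ∑' J : Finset V, (jam N A J).toReal * (J.card : ℝ)

/-- The probability that `v` is occupied in the jammed state on `A`, by recursion over the first
occupied vertex (an explicit rational number). -/
noncomputable def occ {V : Type} [DecidableEq V] (N : V → Finset V) (A : Finset V) (v : V) : ℚ :=
  (∑ x ∈ A.attach, if x.1 = v then 1 else occ N (A \ cn N x.1) v) / A.card
termination_by A.card
decreasing_by exact card_sdiff_cn_lt N x.2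

/-- The square lattice. -/
def nb (p : ℤ × ℤ) : Finset (ℤ × ℤ) :=
  {(p.1 + 1, p.2), (p.1 - 1, p.2), (p.1, p.2 + 1), (p.1, p.2 - 1)}

/-- The grid `G_{k,n}` (with the neighbours of the square lattice inside it). -/
noncomputable def grid (k n : ℕ) : Finset (ℤ × ℤ) := Finset.Icc 1 (k : ℤ) ×ˢ Finset.Icc 1 (n : ℤ)

end Pool.Agent.H98.RSA
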