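import Pool.Agent.H98.RSA.Sym

/-!
# Random sequential adsorption (MP_eaa50a_pr): a fast form of the checker for the kernel
-/

set_option autoImplicit false
set_option maxRecDepth 100000

open Finset

namespace Pool.Agent.H98.RSA

/-- evaluate `v` first -/
def fz {α : Type} (v : ℕ) (f : ℕ → α) : α :=
  Nat.rec (motive := fun _ => α) (f 0) (fun k _ => f (Nat.succ k)) v

theorem fz_eq {α : Type} (v : ℕ) (f : ℕ → α) : fz v f = f v := by
  cases v <;> rfl

/-- fast form of `go`, the loop -/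
def gof (W p B o G M A n K : ℕ) (img : ℕ → ℕ → ℕ) (fin : ℕ → ℕ → Bool) (f : ℕ) :
    ℕ → ℕ → ℕ → ℕ → Bool :=
  Nat.rec (motive := fun _ => ℕ → ℕ → ℕ → ℕ → Bool)
    (fun rem _ acc c => and (Nat.beq rem 0) (fin acc c))
    (fun _ rec rem T acc c =>
      cond (Nat.beq rem 0) (fin acc c)
        (fz (Nat.mod T 65536) fun t => fz (Nat.div t G) fun s => fz (Nat.log2 rem) fun x =>
          fz (Nat.shiftRight (Nat.shiftLeft p x) W) fun cx =>
          fz (Nat.xor K (Nat.land K cx)) fun C =>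
          fz (img (Nat.mod t G) (Nat.mod (Nat.shiftRight M (Nat.mul B s)) (Nat.pow 2 B))) fun Tm =>
          and (and (Nat.blt s n)
            (and (and (Nat.beq (Nat.land Tm C) Tm)
              (Nat.beq (Nat.lor (Nat.land (Nat.lor (Nat.lor (Nat.lor (Nat.shiftLeft Tm 1)
                (Nat.shiftRight Tm 1)) (Nat.shiftLeft Tm W)) (Nat.shiftRight Tm W)) C) Tm) Tm))
              (Nat.beq (Nat.mod (Nat.shiftRight Tm o) 2) 1)))
            (fz (Nat.xor rem (Nat.shiftLeft 1 x)) fun rem' => fz (Nat.shiftRight T 16) fun T' =>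
              fz (Nat.add acc (Nat.mod (Nat.shiftRight A (Nat.mul 32 s)) 4294967296)) fun acc' =>
              fz (Nat.add c 1) fun c' => rec rem' T' acc' c')))
    f

theorem gof_eq (P : Par) (M A n K : ℕ) (fin : ℕ → ℕ → Bool) : ∀ (f rem T acc c : ℕ),
    gof P.W P.p P.B P.o P.G M A n K P.img fin f rem T acc c = go P M A n K fin f rem T acc c := by
  intro f
  induction f with
  | zero =>
    intro rem T acc c
    rfl
  | succ f ih =>
    intro rem T acc c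
    unfold go
    have h1 : gof P.W P.p P.B P.o P.G M A n K P.img fin (f + 1) rem T acc c =
      cond (Nat.beq rem 0) (fin acc c)
        (fz (Nat.mod T 65536) fun t => fz (Nat.div t P.G) fun s => fz (Nat.log2 rem) fun x =>
          fz (Nat.shiftRight (Nat.shiftLeft P.p x) P.W) fun cx =>
          fz (Nat.xor K (Nat.land K cx)) fun C =>
          fz (P.img (Nat.mod t P.G) (Nat.mod (Nat.shiftRight M (Nat.mul P.B s)) (Nat.pow 2 P.B)))
            fun Tm =>
          and (and (Nat.blt s n)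
            (and (and (Nat.beq (Nat.land Tm C) Tm)
              (Nat.beq (Nat.lor (Nat.land (Nat.lor (Nat.lor (Nat.lor (Nat.shiftLeft Tm 1)
                (Nat.shiftRight Tm 1)) (Nat.shiftLeft Tm P.W)) (Nat.shiftRight Tm P.W)) C) Tm) Tm))
              (Nat.beq (Nat.mod (Nat.shiftRight Tm P.o) 2) 1)))
            (fz (Nat.xor rem (Nat.shiftLeft 1 x)) fun rem' => fz (Nat.shiftRight T 16) fun T' =>
              fz (Nat.add acc (Nat.mod (Nat.shiftRight A (Nat.mul 32 s)) 4294967296)) fun acc' =>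
              fz (Nat.add c 1) fun c' =>
                gof P.W P.p P.B P.o P.G M A n K P.img fin f rem' T' acc' c')) := rfl
    rw [h1]
    simp only [fz_eq]
    rw [ih]
    rfl

/-- fast form of `nw` for the square -/
def sw1 (m r M s : ℕ) : ℕ :=
  Nat.lor (Nat.lor r (Nat.shiftLeft (Nat.land m M) s)) (Nat.land (Nat.shiftRight m s) M)

def rxf (m : ℕ) : ℕ :=
  fz m fun m => sw1 m (sw1 m (sw1 m (sw1 m (Nat.land m 0x1004010040100401004010)
    0x802008020080200802008 2) 0x401004010040100401004 4) 0x200802008020080200802 6)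
    0x100401004010040100401 8

def ryf (m : ℕ) : ℕ :=
  fz m fun m => sw1 m (sw1 m (sw1 m (sw1 m (Nat.land m 0x1ff0000000000)
    0x7fc0000000 20) 0x1ff00000 40) 0x7fc00 60) 0x1ff 80

def trf (m : ℕ) : ℕ :=
  fz m fun m => sw1 m (sw1 m (sw1 m (sw1 m (sw1 m (sw1 m (sw1 m (sw1 m
    (Nat.land m 0x10020040080100200400801)
    0x40080100200400801002 9) 0x100200400801002004 18) 0x400801002004008 27)
    0x1002004008010 36) 0x4008010020 45) 0x10020040 54) 0x40080 63) 0x100 72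

theorem rxf_eq (m : ℕ) : rxf m = rx m := by
  unfold rxf
  rw [fz_eq]
  rfl

theorem ryf_eq (m : ℕ) : ryf m = ry m := by
  unfold ryf
  rw [fz_eq]
  rfl

theorem trf_eq (m : ℕ) : trf m = tr m := by
  unfold trf
  rw [fz_eq]
  rfl

/-- fast form of `i8` -/
def i8f (g m : ℕ) : ℕ :=
  fz (cond (Nat.beq (Nat.mod g 2) 1) (trf m) m) fun m1 =>
  fz (cond (Nat.beq (Nat.mod (Nat.div g 2) 2) 1) (rxf m1) m1) fun m2 =>
  cond (Nat.beq (Nat.mod (Nat.div g 4) 2) 1) (ryf m2) m2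

theorem i8f_eq : i8f = i8 := by
  funext g m
  unfold i8f
  simp only [fz_eq, rxf_eq, ryf_eq, trf_eq]
  rfl

def sxf (m : ℕ) : ℕ :=
  fz m fun m => sw1 m (sw1 m (sw1 m (sw1 m (sw1 m (Nat.land m 0x20020020020000)
    0x10010010010000 2) 0x8008008008000 4) 0x4004004004000 6) 0x2002002002000 8)
    0x1001001001000 10

theorem sxf_eq (m : ℕ) : sxf m = sx m := by
  unfold sxf
  rw [fz_eq]
  rfl

def i2f (g m : ℕ) : ℕ := cond (Nat.beq g 1) (sxf m) m

theorem i2f_eq : i2f = i2 := by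
  funext g m
  unfold i2f
  rw [sxf_eq]
  rfl

/-- fast form of `chk` -/
def chkf (W p B o R G : ℕ) (img : ℕ → ℕ → ℕ) (M A n : ℕ) (cmp : ℕ → ℕ → ℕ → Bool) (s T : ℕ) :
    Bool :=
  fz (Nat.mod (Nat.shiftRight M (Nat.mul B s)) (Nat.pow 2 B)) fun K =>
  fz (Nat.mod (Nat.shiftRight A (Nat.mul 32 s)) 4294967296) fun a =>
  and (and (Nat.beq (Nat.mod (Nat.shiftRight K o) 2) 1) (Nat.beq (Nat.land K R) K))
    (fz (Nat.xor K (Nat.land K (Nat.shiftRight (Nat.shiftLeft p o) W))) fun rem =>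
    fz (Nat.add (Nat.add (Nat.add (Nat.add (Nat.mod (Nat.shiftRight K o) 2)
      (Nat.mod (Nat.shiftRight K (Nat.add o 1)) 2)) (Nat.mod (Nat.shiftRight K (Nat.sub o 1)) 2))
      (Nat.mod (Nat.shiftRight K (Nat.add o W)) 2)) (Nat.mod (Nat.shiftRight K (Nat.sub o W)) 2))
      fun c5 =>
    gof W p B o G M A n K img (fun acc c => cmp a acc (Nat.add c c5)) 128 rem T 0 0)

theorem chkf_eq (P : Par) (M A n : ℕ) (cmp : ℕ → ℕ → ℕ → Bool) (s T : ℕ) :
    chkf P.W P.p P.B P.o P.R P.G P.img M A n cmp s T = chk P M A n cmp s T := by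
  unfold chkf
  simp only [fz_eq]
  rw [gof_eq]
  rfl

/-- fast form of `blk` -/
def blkf (W p B o R G : ℕ) (img : ℕ → ℕ → ℕ) (M A n : ℕ) (cmp : ℕ → ℕ → ℕ → Bool) (b TT s0 : ℕ)
    (c : ℕ) : Bool :=
  Nat.rec (motive := fun _ => Bool) true
    (fun c rec => fz (Nat.add s0 c) fun s =>
      fz (Nat.mod (Nat.shiftRight TT (Nat.mul b c)) (Nat.pow 2 b)) fun T =>
      and (chkf W p B o R G img M A n cmp s T) rec) c

theorem blkf_eq (P : Par) (M A n : ℕ) (cmp : ℕ → ℕ → ℕ → Bool) (b TT s0 : ℕ) : ∀ c,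
    blkf P.W P.p P.B P.o P.R P.G P.img M A n cmp b TT s0 c = blk P M A n cmp b TT s0 c := by
  intro c
  induction c with
  | zero => rfl
  | succ c ih =>
    have h1 : blkf P.W P.p P.B P.o P.R P.G P.img M A n cmp b TT s0 (c + 1) =
      (fz (Nat.add s0 c) fun s =>
      fz (Nat.mod (Nat.shiftRight TT (Nat.mul b c)) (Nat.pow 2 b)) fun T =>
      and (chkf P.W P.p P.B P.o P.R P.G P.img M A n cmp s T)
        (blkf P.W P.p P.B P.o P.R P.G P.img M A n cmp b TT s0 c)) := rfl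
    rw [h1]
    simp only [fz_eq]
    rw [ih, chkf_eq]
    rfl

/-- fast form of `run` -/
def runf (W p B o R G : ℕ) (img : ℕ → ℕ → ℕ) (M A n : ℕ) (cmp : ℕ → ℕ → ℕ → Bool) :
    List (ℕ × ℕ × ℕ) → ℕ → ℕ → Bool
  | [], s0, s1 => Nat.beq s0 s1
  | (c, b, TT) :: l, s0, s1 =>
    blkf W p B o R G img M A n cmp b TT s0 c && runf W p B o R G img M A n cmp l (s0 + c) s1

theorem runf_eq (P : Par) (M A n : ℕ) (cmp : ℕ → ℕ → ℕ → Bool) : ∀ (l : List (ℕ × ℕ × ℕ))
    (s0 s1 : ℕ), runf P.W P.p P.B P.o P.R P.G P.img M A n cmp l s0 s1 =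
      run P M A n cmp l s0 s1 := by
  intro l
  induction l with
  | nil => intro s0 s1; rfl
  | cons q l ih =>
    intro s0 s1
    obtain ⟨c, b, TT⟩ := q
    unfold runf run
    rw [ih, blkf_eq]

/-- the square lattice, lower bounds -/
def rPl (M A n : ℕ) : List (ℕ × ℕ × ℕ) → ℕ → ℕ → Bool :=
  runf 10 0x100E01 96 44 0x1ff7fdff7fdff7fdff7fdff 8 i8f M A n
    (fun a acc c => Nat.ble (Nat.mul a c) (Nat.add 1073741824 acc))

/-- the square lattice, upper bounds -/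
def rPu (M A n : ℕ) : List (ℕ × ℕ × ℕ) → ℕ → ℕ → Bool :=
  runf 10 0x100E01 96 44 0x1ff7fdff7fdff7fdff7fdff 8 i8f M A n
    (fun a acc c => Nat.ble (Nat.add 1073741824 acc) (Nat.mul a c))

theorem rPl_eq (M A n : ℕ) (l : List (ℕ × ℕ × ℕ)) (s0 s1 : ℕ) :
    rPl M A n l s0 s1 = run PP M A n cl l s0 s1 := by
  have h := runf_eq PP M A n cl l s0 s1
  rw [← h]
  unfold rPl
  rw [i8f_eq]
  rfl

theorem rPu_eq (M A n : ℕ) (l : List (ℕ × ℕ × ℕ)) (s0 s1 : ℕ) :
    rPu M A n l s0 s1 = run PP M A n cu l s0 s1 := by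
  have h := runf_eq PP M A n cu l s0 s1
  rw [← h]
  unfold rPu
  rw [i8f_eq]
  rfl

/-- the strip, row 1 or 2 (centre `o`), lower bounds -/
def rSl (o M A n : ℕ) : List (ℕ × ℕ × ℕ) → ℕ → ℕ → Bool :=
  runf 12 0x1003801 64 o 0x7ff7ff7ff7ff000 2 i2f M A n
    (fun a acc c => Nat.ble (Nat.mul a c) (Nat.add 1073741824 acc))

/-- the strip, row 1 or 2 (centre `o`), upper bounds -/
def rSu (o M A n : ℕ) : List (ℕ × ℕ × ℕ) → ℕ → ℕ → Bool :=
  runf 12 0x1003801 64 o 0x7ff7ff7ff7ff000 2 i2f M A n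
    (fun a acc c => Nat.ble (Nat.add 1073741824 acc) (Nat.mul a c))

theorem rSl_eq1 (M A n : ℕ) (l : List (ℕ × ℕ × ℕ)) (s0 s1 : ℕ) :
    rSl 17 M A n l s0 s1 = run P1 M A n cl l s0 s1 := by
  have h := runf_eq P1 M A n cl l s0 s1
  rw [← h]
  unfold rSl
  rw [i2f_eq]
  rfl

theorem rSu_eq1 (M A n : ℕ) (l : List (ℕ × ℕ × ℕ)) (s0 s1 : ℕ) :
    rSu 17 M A n l s0 s1 = run P1 M A n cu l s0 s1 := by
  have h := runf_eq P1 M A n cu l s0 s1
  rw [← h]
  unfold rSu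
  rw [i2f_eq]
  rfl

theorem rSl_eq2 (M A n : ℕ) (l : List (ℕ × ℕ × ℕ)) (s0 s1 : ℕ) :
    rSl 29 M A n l s0 s1 = run P2 M A n cl l s0 s1 := by
  have h := runf_eq P2 M A n cl l s0 s1
  rw [← h]
  unfold rSl
  rw [i2f_eq]
  rfl

theorem rSu_eq2 (M A n : ℕ) (l : List (ℕ × ℕ × ℕ)) (s0 s1 : ℕ) :
    rSu 29 M A n l s0 s1 = run P2 M A n cu l s0 s1 := by
  have h := runf_eq P2 M A n cu l s0 s1
  rw [← h]
  unfold rSu
  rw [i2f_eq]
  rfl

end Pool.Agent.H98.RSA
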