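import Pool.Agent.H98.RSA.Core

/-!
# The mean number of occupied vertices is the sum of the occupation probabilities
-/

set_option autoImplicit false

open Finset
open scoped ENNReal

namespace Pool.Agent.H98.RSA

theorem tsum_bind {α β : Type} (p : PMF α) (f : α → PMF β) (g : β → ℝ≥0∞) :
    ∑' b, (p.bind f) b * g b = ∑' a, p a * ∑' b, f a b * g b := by
  have h1 : ∀ b, (p.bind f) b * g b = ∑' a, p a * (f a b * g b) := by
    intro b
    rw [PMF.bind_apply, ← ENNReal.tsum_mul_right]
    exact tsum_congr fun a => mul_assoc _ _ _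
  rw [tsum_congr h1, ENNReal.tsum_comm]
  exact tsum_congr fun a => ENNReal.tsum_mul_left

theorem tsum_pure {β : Type} (b₀ : β) (g : β → ℝ≥0∞) : ∑' b, (PMF.pure b₀) b * g b = g b₀ := by
  classical
  rw [tsum_eq_single b₀]
  · rw [PMF.pure_apply, if_pos rfl, one_mul]
  · intro b hb
    rw [PMF.pure_apply, if_neg hb, zero_mul]

theorem tsum_map {α β : Type} (p : PMF α) (h : α → β) (g : β → ℝ≥0∞) :
    ∑' b, (p.map h) b * g b = ∑' a, p a * g (h a) := by
  rw [← PMF.bind_pure_comp, tsum_bind]
  refine tsum_congr fun a => ?_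
  rw [Function.comp_apply, tsum_pure]

variable {V : Type} [DecidableEq V]

theorem jam_support (N : V → Finset V) : ∀ (n : ℕ) (A : Finset V), A.card = n →
    ∀ J ∈ (jam N A).support, J ⊆ A := by
  intro n
  induction n using Nat.strong_induction_on with
  | _ n ih =>
    intro A hn J hJ
    rw [jam] at hJ
    split_ifs at hJ with h
    · rw [PMF.mem_support_bind_iff] at hJ
      obtain ⟨x, hx, hJ⟩ := hJ
      rw [PMF.mem_support_uniformOfFinset_iff] at hx
      rw [dif_pos hx, PMF.mem_support_map_iff] at hJ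
      obtain ⟨J', hJ', rfl⟩ := hJ
      have h2 := ih _ (hn ▸ card_sdiff_cn_lt N hx) _ rfl J' hJ'
      intro y hy
      rw [Finset.mem_insert] at hy
      rcases hy with rfl | hy
      · exact hx
      · exact (Finset.mem_sdiff.1 (h2 hy)).1
    · rw [PMF.mem_support_pure_iff] at hJ
      rw [hJ]
      exact Finset.empty_subset _

/-- the mean as an extended number -/
noncomputable def EE (N : V → Finset V) (A : Finset V) : ℝ≥0∞ :=
  ∑' J : Finset V, jam N A J * (J.card : ℝ≥0∞)

theorem EE_rec (N : V → Finset V) {A : Finset V} (hA : A.Nonempty) :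
    EE N A = ∑ x ∈ A, (A.card : ℝ≥0∞)⁻¹ * (1 + EE N (A \ cn N x)) := by
  unfold EE
  have h0 : jam N A = (PMF.uniformOfFinset A hA).bind fun x =>
      if _hx : x ∈ A then (jam N (A \ cn N x)).map (insert x) else PMF.pure ∅ := by
    rw [jam, dif_pos hA]
  rw [h0, tsum_bind, tsum_eq_sum (s := A)]
  · refine Finset.sum_congr rfl fun x hx => ?_
    rw [PMF.uniformOfFinset_apply_of_mem (ha := hx), dif_pos hx, tsum_map]
    congr 1
    have h1 : ∀ J : Finset V, jam N (A \ cn N x) J * ((insert x J).card : ℝ≥0∞) =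
        jam N (A \ cn N x) J + jam N (A \ cn N x) J * (J.card : ℝ≥0∞) := by
      intro J
      by_cases hJ : J ∈ (jam N (A \ cn N x)).support
      · have h2 := jam_support N _ _ rfl J hJ
        have h3 : x ∉ J := fun h => (Finset.mem_sdiff.1 (h2 h)).2 (mem_cn_self N x)
        rw [Finset.card_insert_of_notMem h3, Nat.cast_add, Nat.cast_one, mul_add, mul_one, add_comm]
      · rw [PMF.mem_support_iff, not_not] at hJ
        rw [hJ, zero_mul, zero_mul, add_zero]
    rw [tsum_congr h1, ENNReal.tsum_add, PMF.tsum_coe]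
  · intro x hx
    rw [PMF.uniformOfFinset_apply_of_notMem (ha := hx), zero_mul]

/-- the sum of the occupation probabilities satisfies the same recursion -/
theorem sum_occ_rec (N : V → Finset V) (A : Finset V) :
    (∑ v ∈ A, occ N A v) * A.card = ∑ x ∈ A, (1 + ∑ v ∈ A \ cn N x, occ N (A \ cn N x) v) := by
  rw [Finset.sum_mul]
  have h1 : ∀ v ∈ A, occ N A v * (A.card : ℚ) =
      ∑ x ∈ A, if x = v then 1 else occ N (A \ cn N x) v := fun v _ => occ_rec N A v
  rw [Finset.sum_congr rfl h1, Finset.sum_comm]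
  refine Finset.sum_congr rfl fun x hx => ?_
  have h2 : ∀ v ∈ A, (if x = v then (1 : ℚ) else occ N (A \ cn N x) v) =
      (if x = v then 1 else 0) + occ N (A \ cn N x) v := by
    intro v _
    by_cases hxv : x = v
    · rw [if_pos hxv, if_pos hxv, ← hxv, occ_notMem N (A := A \ cn N x) (v := x), add_zero]
      intro h
      exact (Finset.mem_sdiff.1 h).2 (mem_cn_self N x)
    · rw [if_neg hxv, if_neg hxv, zero_add]
  rw [Finset.sum_congr rfl h2, Finset.sum_add_distrib, Finset.sum_ite_eq, if_pos hx]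
  congr 1
  symm
  refine Finset.sum_subset Finset.sdiff_subset fun v _ hv => occ_notMem N hv

theorem EE_eq (N : V → Finset V) : ∀ (n : ℕ) (A : Finset V), A.card = n →
    EE N A = ENNReal.ofReal (∑ v ∈ A, (occ N A v : ℝ)) := by
  intro n
  induction n using Nat.strong_induction_on with
  | _ n ih =>
    intro A hn
    rcases A.eq_empty_or_nonempty with rfl | hA
    · unfold EE
      rw [jam, dif_neg (by simp), tsum_pure]
      simp
    · have hc : (0 : ℝ) < A.card := by exact_mod_cast hA.card_pos
      rw [EE_rec N hA]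
      have h1 : ∀ x ∈ A, (A.card : ℝ≥0∞)⁻¹ * (1 + EE N (A \ cn N x)) =
          ENNReal.ofReal ((A.card : ℝ)⁻¹ * (1 + ∑ v ∈ A \ cn N x, (occ N (A \ cn N x) v : ℝ))) := by
        intro x hx
        have hnn : 0 ≤ ∑ v ∈ A \ cn N x, (occ N (A \ cn N x) v : ℝ) :=
          Finset.sum_nonneg fun v _ => by exact_mod_cast occ_nonneg' N _ v
        rw [ih _ (hn ▸ card_sdiff_cn_lt N hx) _ rfl, ENNReal.ofReal_mul (by positivity),
          ENNReal.ofReal_add zero_le_one hnn, ENNReal.ofReal_one,
          ENNReal.ofReal_inv_of_pos hc, ENNReal.ofReal_natCast]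
      rw [Finset.sum_congr rfl h1, ← ENNReal.ofReal_sum_of_nonneg]
      · congr 1
        have h2 := sum_occ_rec N A
        have h3 : (∑ v ∈ A, (occ N A v : ℝ)) * A.card =
            ∑ x ∈ A, (1 + ∑ v ∈ A \ cn N x, (occ N (A \ cn N x) v : ℝ)) := by
          exact_mod_cast h2
        rw [← Finset.mul_sum, ← h3]
        field_simp
      · intro x _
        refine mul_nonneg (by positivity) (add_nonneg zero_le_one
          (Finset.sum_nonneg fun v _ => ?_))
        exact_mod_cast occ_nonneg' N _ v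

/-- THE MEAN NUMBER OF OCCUPIED VERTICES. -/
theorem meanSize_eq (N : V → Finset V) (A : Finset V) :
    meanSize N A = ∑ v ∈ A, (occ N A v : ℝ) := by
  have hnn : 0 ≤ ∑ v ∈ A, (occ N A v : ℝ) :=
    Finset.sum_nonneg fun v _ => by exact_mod_cast occ_nonneg' N A v
  have h1 := EE_eq N _ A rfl
  have h2 : (EE N A).toReal = meanSize N A := by
    unfold EE meanSize
    rw [ENNReal.tsum_toReal_eq]
    · refine tsum_congr fun J => ?_
      rw [ENNReal.toReal_mul, ENNReal.toReal_natCast]
    · intro J
      exact ENNReal.mul_ne_top (PMF.apply_ne_top _ _) (ENNReal.natCast_ne_top _)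
  rw [← h2, h1, ENNReal.toReal_ofReal hnn]

end Pool.Agent.H98.RSA
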