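import Pool.Agent.H98.RSA.Path
import Pool.Agent.H98.RSA.Mean

/-!
# Clusters in the square lattice and in strips: the brackets and the influence bound
-/

set_option autoImplicit false

open Finset
open scoped Nat

namespace Pool.Agent.H98.RSA

theorem mem_nb {p q : ℤ × ℤ} : q ∈ nb p ↔
    (q = (p.1 + 1, p.2) ∨ q = (p.1 - 1, p.2) ∨ q = (p.1, p.2 + 1) ∨ q = (p.1, p.2 - 1)) := by
  unfold nb
  simp only [Finset.mem_insert, Finset.mem_singleton]

theorem nb_sym (x y : ℤ × ℤ) (h : y ∈ nb x) : x ∈ nb y := by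
  rw [mem_nb] at h ⊢
  rcases h with rfl | rfl | rfl | rfl
  · right; left; exact Prod.ext (by simp) rfl
  · left; exact Prod.ext (by simp) rfl
  · right; right; right; exact Prod.ext rfl (by simp)
  · right; right; left; exact Prod.ext rfl (by simp)

theorem nb_card (x : ℤ × ℤ) : (nb x).card ≤ 4 := by
  unfold nb
  refine (Finset.card_insert_le _ _).trans ?_
  refine Nat.succ_le_succ ((Finset.card_insert_le _ _).trans ?_)
  refine Nat.succ_le_succ ((Finset.card_insert_le _ _).trans ?_)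
  simp

theorem nb_shift (x y τ : ℤ × ℤ) : y + τ ∈ nb (x + τ) ↔ y ∈ nb x := by
  rw [mem_nb, mem_nb]
  simp only [Prod.ext_iff, Prod.fst_add, Prod.snd_add]
  constructor
  · rintro (⟨h1, h2⟩ | ⟨h1, h2⟩ | ⟨h1, h2⟩ | ⟨h1, h2⟩)
    · left; constructor <;> linarith
    · right; left; constructor <;> linarith
    · right; right; left; constructor <;> linarith
    · right; right; right; constructor <;> linarith
  · rintro (⟨h1, h2⟩ | ⟨h1, h2⟩ | ⟨h1, h2⟩ | ⟨h1, h2⟩)
    · left; constructor <;> linarith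
    · right; left; constructor <;> linarith
    · right; right; left; constructor <;> linarith
    · right; right; right; constructor <;> linarith

theorem occ_shift (C : Finset (ℤ × ℤ)) (o τ : ℤ × ℤ) (ho : o ∈ C) :
    occ nb (C.image (fun x => x + τ)) (o + τ) = occ nb C o :=
  occ_image nb nb (fun x => x + τ) (fun x _ y _ h => add_right_cancel h)
    (fun x _ y _ => nb_shift x y τ) ho

/-- the vertices with the parity of `v` -/
def par (v y : ℤ × ℤ) : Prop := Even (y.1 + y.2 - (v.1 + v.2))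

theorem par_self (v : ℤ × ℤ) : par v v := by
  unfold par
  rw [sub_self]
  exact Even.zero

theorem par_bip (v x y : ℤ × ℤ) (h : y ∈ nb x) : par v y ↔ ¬ par v x := by
  rw [mem_nb] at h
  unfold par
  rw [Int.even_iff, Int.even_iff]
  rcases h with rfl | rfl | rfl | rfl <;> simp only <;> omega

theorem par_shift (v x τ : ℤ × ℤ) : par (v + τ) (x + τ) ↔ par v x := by
  unfold par
  rw [Prod.fst_add, Prod.fst_add, Prod.snd_add, Prod.snd_add]
  have : x.1 + τ.1 + (x.2 + τ.2) - (v.1 + τ.1 + (v.2 + τ.2)) = x.1 + x.2 - (v.1 + v.2) := by ring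
  rw [this]

/-- THE LOWER BRACKET for a cluster `C` of the host `H` placed in `A`. -/
theorem bracket_lower (H : Set (ℤ × ℤ)) (C A : Finset (ℤ × ℤ)) (o τ : ℤ × ℤ) (ho : o ∈ C)
    (hCA : ∀ x ∈ C, x + τ ∈ A) (hH : ∀ y ∈ A, y - τ ∈ H)
    (hC : ∀ x ∈ C, ∀ y ∈ nb x, y ∈ H → y ∉ C → par o y) : occ nb C o ≤ occ nb A (o + τ) := by
  rw [← occ_shift C o τ ho]
  refine occ_lower nb nb_sym (par (o + τ)) (fun x y => par_bip (o + τ) x y) ?_ (par_self _) ?_
  · intro z hz
    obtain ⟨x, hx, rfl⟩ := Finset.mem_image.1 hz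
    exact hCA x hx
  · intro z hz y hy hyz hyC
    obtain ⟨x, hx, rfl⟩ := Finset.mem_image.1 hz
    have e : y = (y - τ) + τ := (sub_add_cancel y τ).symm
    rw [e] at hyz
    have h1 : y - τ ∈ nb x := (nb_shift x (y - τ) τ).1 hyz
    have h2 : y - τ ∉ C := fun h => hyC (Finset.mem_image.2 ⟨y - τ, h, sub_add_cancel y τ⟩)
    have h3 := hC x hx (y - τ) h1 (hH y hy) h2
    rw [e, par_shift]
    exact h3

/-- THE UPPER BRACKET -/
theorem bracket_upper (H : Set (ℤ × ℤ)) (C A : Finset (ℤ × ℤ)) (o τ : ℤ × ℤ) (ho : o ∈ C)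
    (hCA : ∀ x ∈ C, x + τ ∈ A) (hH : ∀ y ∈ A, y - τ ∈ H)
    (hC : ∀ x ∈ C, ∀ y ∈ nb x, y ∈ H → y ∉ C → ¬ par o y) : occ nb A (o + τ) ≤ occ nb C o := by
  rw [← occ_shift C o τ ho]
  refine occ_upper nb nb_sym (par (o + τ)) (fun x y => par_bip (o + τ) x y) ?_ (par_self _)
    (fun _ => Finset.mem_image.2 ⟨o, ho, rfl⟩) ?_
  · intro z hz
    obtain ⟨x, hx, rfl⟩ := Finset.mem_image.1 hz
    exact hCA x hx
  · intro z hz y hy hyz hyC
    obtain ⟨x, hx, rfl⟩ := Finset.mem_image.1 hz
    have e : y = (y - τ) + τ := (sub_add_cancel y τ).symm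
    rw [e] at hyz
    have h1 : y - τ ∈ nb x := (nb_shift x (y - τ) τ).1 hyz
    have h2 : y - τ ∉ C := fun h => hyC (Finset.mem_image.2 ⟨y - τ, h, sub_add_cancel y τ⟩)
    have h3 := hC x hx (y - τ) h1 (hH y hy) h2
    rw [e, par_shift]
    exact h3

/-! ### the influence bound -/

theorem sW_le (U : Finset (ℤ × ℤ)) (W : Finset (ℤ × ℤ)) : ∀ (j : ℕ) (U : Finset (ℤ × ℤ))
    (v : ℤ × ℤ), sW nb j U W v ≤ 4 ^ j := by
  intro j
  induction j with
  | zero =>
    intro U v
    unfold sW sw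
    calc ∑ w ∈ W, (if v = w ∧ v ∈ U then 1 else 0) ≤ ∑ w ∈ W, if v = w then 1 else 0 := by
          refine Finset.sum_le_sum fun w _ => ?_
          by_cases h : v = w
          · rw [if_pos h]
            split_ifs <;> omega
          · rw [if_neg h, if_neg (fun h' => h h'.1)]
      _ ≤ 4 ^ 0 := by
          rw [Finset.sum_ite_eq]
          split_ifs <;> simp
  | succ j ih =>
    intro U v
    have h1 : sW nb (j + 1) U W v ≤ ∑ y ∈ nb v, sW nb j (U.erase v) W y := by
      unfold sW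
      rw [Finset.sum_comm]
      refine Finset.sum_le_sum fun w _ => ?_
      rw [sw]
      split_ifs
      · exact le_refl _
      · exact Nat.zero_le _
    calc sW nb (j + 1) U W v ≤ ∑ y ∈ nb v, sW nb j (U.erase v) W y := h1
      _ ≤ ∑ y ∈ nb v, 4 ^ j := Finset.sum_le_sum fun y _ => ih _ _
      _ = (nb v).card * 4 ^ j := by rw [Finset.sum_const, smul_eq_mul]
      _ ≤ 4 * 4 ^ j := Nat.mul_le_mul_right _ (nb_card v)
      _ = 4 ^ (j + 1) := by rw [pow_succ, mul_comm]

/-- the distance in the lattice -/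
def l1 (p q : ℤ × ℤ) : ℤ := |p.1 - q.1| + |p.2 - q.2|

theorem l1_nb {x y w : ℤ × ℤ} (h : y ∈ nb x) : l1 x w ≤ l1 y w + 1 := by
  rw [mem_nb] at h
  unfold l1
  rcases h with rfl | rfl | rfl | rfl
  · have := abs_sub_le x.1 (x.1 + 1) w.1
    have h2 : |x.1 - (x.1 + 1)| = 1 := by rw [show x.1 - (x.1 + 1) = -1 by ring]; rfl
    simp only
    linarith
  · have := abs_sub_le x.1 (x.1 - 1) w.1
    have h2 : |x.1 - (x.1 - 1)| = 1 := by rw [show x.1 - (x.1 - 1) = 1 by ring]; rfl
    simp only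
    linarith
  · have := abs_sub_le x.2 (x.2 + 1) w.2
    have h2 : |x.2 - (x.2 + 1)| = 1 := by rw [show x.2 - (x.2 + 1) = -1 by ring]; rfl
    simp only
    linarith
  · have := abs_sub_le x.2 (x.2 - 1) w.2
    have h2 : |x.2 - (x.2 - 1)| = 1 := by rw [show x.2 - (x.2 - 1) = 1 by ring]; rfl
    simp only
    linarith

theorem sw_dist : ∀ (j : ℕ) (U : Finset (ℤ × ℤ)) (v w : ℤ × ℤ), (j : ℤ) < l1 v w →
    sw nb j U v w = 0 := by
  intro j
  induction j with
  | zero =>
    intro U v w h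
    unfold sw
    rw [if_neg]
    rintro ⟨rfl, -⟩
    unfold l1 at h
    simp at h
  | succ j ih =>
    intro U v w h
    unfold sw
    split_ifs
    · refine Finset.sum_eq_zero fun y hy => ih _ _ _ ?_
      have := l1_nb (w := w) hy
      push_cast at h
      linarith
    · rfl

/-- THE INFLUENCE BOUND: sets which agree at distance less than `L`. -/
theorem occ_near (S T : Finset (ℤ × ℤ)) (v : ℤ × ℤ) (L : ℕ)
    (h : ∀ y, l1 v y < L → (y ∈ S ↔ y ∈ T)) :
    |(occ nb S v : ℝ) - occ nb T v| ≤ Real.exp 4 * 4 ^ L / (L + 1)! := by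
  have h1 := occ_diff nb nb_sym _ S T (le_refl _) v
  obtain ⟨n, hn⟩ : ∃ n, n = (S ∪ T).card + 1 := ⟨_, rfl⟩
  rw [← hn] at h1
  have h2 : bnd nb n (S ∪ T) (S \ T ∪ T \ S) v ≤
      ∑ j ∈ Finset.range n, if L ≤ j then (4 : ℚ) ^ j / (j + 1)! else 0 := by
    unfold bnd
    refine Finset.sum_le_sum fun j _ => ?_
    split_ifs with hj
    · refine div_le_div_of_nonneg_right ?_ (by positivity)
      exact_mod_cast sW_le ∅ _ j _ v
    · have h3 : sW nb j (S ∪ T) (S \ T ∪ T \ S) v = 0 := by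
        unfold sW
        refine Finset.sum_eq_zero fun w hw => sw_dist j _ v w ?_
        by_contra hcon
        have h4 : l1 v w < L := by
          rw [not_lt] at hcon
          have : (j : ℤ) < L := by exact_mod_cast not_le.1 hj
          linarith
        have h5 := h w h4
        rw [Finset.mem_union, Finset.mem_sdiff, Finset.mem_sdiff] at hw
        tauto
      rw [h3, Nat.cast_zero, zero_div]
  have h3 : (∑ j ∈ Finset.range n, if L ≤ j then (4 : ℝ) ^ j / (j + 1)! else 0) ≤
      Real.exp 4 * 4 ^ L / (L + 1)! := by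
    calc (∑ j ∈ Finset.range n, if L ≤ j then (4 : ℝ) ^ j / (j + 1)! else 0)
        ≤ ∑ j ∈ Finset.range (L + n), if L ≤ j then (4 : ℝ) ^ j / (j + 1)! else 0 := by
          refine Finset.sum_le_sum_of_subset_of_nonneg
            (Finset.range_subset_range.2 (Nat.le_add_left _ _)) fun j _ _ => ?_
          split_ifs
          · positivity
          · exact le_refl _
      _ = ∑ i ∈ Finset.range n, (4 : ℝ) ^ (L + i) / (L + i + 1)! := by
          rw [Finset.sum_range_add]
          have e1 : ∑ j ∈ Finset.range L, (if L ≤ j then (4 : ℝ) ^ j / (j + 1)! else 0) = 0 :=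
            Finset.sum_eq_zero fun j hj => by
              rw [if_neg (not_le.2 (Finset.mem_range.1 hj))]
          rw [e1, zero_add]
          exact Finset.sum_congr rfl fun i _ => by rw [if_pos (Nat.le_add_right _ _)]
      _ ≤ ∑ i ∈ Finset.range n, (4 : ℝ) ^ L / (L + 1)! * ((4 : ℝ) ^ i / i !) := by
          refine Finset.sum_le_sum fun i _ => ?_
          rw [div_mul_div_comm, ← pow_add]
          refine div_le_div_of_nonneg_left (by positivity) (by positivity) ?_
          have e2 : (L + 1)! * i ! ≤ (L + i + 1)! := by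
            have := Nat.le_of_dvd (Nat.factorial_pos _)
              (Nat.factorial_mul_factorial_dvd_factorial_add (L + 1) i)
            rw [show L + 1 + i = L + i + 1 by ring] at this
            exact this
          exact_mod_cast e2
      _ = (4 : ℝ) ^ L / (L + 1)! * ∑ i ∈ Finset.range n, (4 : ℝ) ^ i / i ! := by
          rw [Finset.mul_sum]
      _ ≤ (4 : ℝ) ^ L / (L + 1)! * Real.exp 4 :=
          mul_le_mul_of_nonneg_left (Real.sum_le_exp_of_nonneg (by norm_num) n) (by positivity)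
      _ = Real.exp 4 * 4 ^ L / (L + 1)! := by ring
  have h4 : (|occ nb S v - occ nb T v| : ℚ) ≤
      ∑ j ∈ Finset.range n, if L ≤ j then (4 : ℚ) ^ j / (j + 1)! else 0 := h1.trans h2
  have h5 : ((|occ nb S v - occ nb T v| : ℚ) : ℝ) ≤
      ((∑ j ∈ Finset.range n, if L ≤ j then (4 : ℚ) ^ j / (j + 1)! else 0 : ℚ) : ℝ) := by
    exact_mod_cast h4
  rw [Rat.cast_abs, Rat.cast_sub] at h5
  refine h5.trans (le_trans (le_of_eq ?_) h3)
  rw [Rat.cast_sum]
  refine Finset.sum_congr rfl fun j _ => ?_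
  split_ifs
  · push_cast; rfl
  · simp

end Pool.Agent.H98.RSA
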