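import Pool.Agent.H98.RSA.Mean
import Pool.Agent.H98.RSA.Lat

/-!
# Random sequential adsorption (MP_eaa50a_pr): the limits exist, and brackets for the limits
-/

set_option autoImplicit false

open Finset Filter Topology
open scoped Nat

namespace Pool.Agent.H98.RSA

/-- the error for two sets which agree at distance less than `L` -/
noncomputable def er (L : ℕ) : ℝ := Real.exp 4 * 4 ^ L / (L + 1)!

theorem er_nonneg (L : ℕ) : 0 ≤ er L := by
  unfold er
  positivity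

theorem er_tendsto : Tendsto er atTop (𝓝 0) := by
  have h1 := (FloorSemiring.tendsto_pow_div_factorial_atTop (4 : ℝ))
  have h2 := (h1.comp (tendsto_add_atTop_nat 1)).const_mul (Real.exp 4 / 4)
  rw [mul_zero] at h2
  refine h2.congr fun L => ?_
  simp only [Function.comp_apply]
  unfold er
  rw [pow_succ]
  field_simp

/-- averages -/
theorem avg_tendsto {X : Type} [DecidableEq X] (A : ℕ → Finset X) (G : ℕ → ℕ → Finset X)
    (g : ℕ → X → ℝ) (p : ℝ) (e : ℕ → ℝ) (he0 : ∀ L, 0 ≤ e L) (he : Tendsto e atTop (𝓝 0))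
    (hb : ∀ n v, |g n v - p| ≤ 1) (hA : ∀ᶠ n in atTop, 0 < (A n).card)
    (hg : ∀ L n v, v ∈ A n → v ∈ G L n → |g n v - p| ≤ e L)
    (hbad : ∀ L, 1 ≤ L → Tendsto (fun n => ((A n \ G L n).card : ℝ) / (A n).card) atTop (𝓝 0)) :
    Tendsto (fun n => (∑ v ∈ A n, g n v) / (A n).card) atTop (𝓝 p) := by
  rw [Metric.tendsto_atTop]
  intro ε hε
  obtain ⟨L, hL1, hL⟩ : ∃ L, 1 ≤ L ∧ e L < ε / 2 := by
    have h1 := (he.eventually (gt_mem_nhds (half_pos hε))).and (eventually_ge_atTop 1)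
    obtain ⟨L, hL⟩ := h1.exists
    exact ⟨L, hL.2, hL.1⟩
  have h2 := ((hbad L hL1).eventually (gt_mem_nhds (half_pos hε))).and hA
  obtain ⟨n0, hn0⟩ := eventually_atTop.1 h2
  refine ⟨n0, fun n hn => ?_⟩
  obtain ⟨h3, h4⟩ := hn0 n hn
  have hc : (0 : ℝ) < (A n).card := by exact_mod_cast h4
  rw [Real.dist_eq]
  have h5 : (∑ v ∈ A n, g n v) / (A n).card - p = (∑ v ∈ A n, (g n v - p)) / (A n).card := by
    rw [Finset.sum_sub_distrib, Finset.sum_const, nsmul_eq_mul]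
    field_simp
  rw [h5, abs_div, abs_of_pos hc]
  have h6 : |∑ v ∈ A n, (g n v - p)| ≤ (A n).card * e L + (A n \ G L n).card := by
    refine (Finset.abs_sum_le_sum_abs _ _).trans ?_
    have h7 : ∀ v ∈ A n, |g n v - p| ≤ e L + (if v ∈ A n \ G L n then 1 else 0) := by
      intro v hv
      by_cases h : v ∈ G L n
      · have h8 := hg L n v hv h
        have h9 : (0 : ℝ) ≤ if v ∈ A n \ G L n then 1 else 0 := by
          split_ifs <;> norm_num
        linarith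
      · rw [if_pos (Finset.mem_sdiff.2 ⟨hv, h⟩)]
        have := hb n v
        have := he0 L
        linarith
    refine (Finset.sum_le_sum h7).trans ?_
    rw [Finset.sum_add_distrib, Finset.sum_const, nsmul_eq_mul, ← Finset.sum_filter,
      Finset.sum_const, nsmul_eq_mul, mul_one]
    have h10 : (A n).filter (fun v => v ∈ A n \ G L n) = A n \ G L n := by
      ext v
      simp only [Finset.mem_filter, Finset.mem_sdiff]
      tauto
    rw [h10]
  calc |∑ v ∈ A n, (g n v - p)| / (A n).card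
      ≤ ((A n).card * e L + (A n \ G L n).card) / (A n).card :=
        div_le_div_of_nonneg_right h6 hc.le
    _ = e L + ((A n \ G L n).card : ℝ) / (A n).card := by field_simp
    _ < ε := by linarith

/-! ### The limit over the boxes of a host -/

/-- the boxes of the host `H` around `o` -/
noncomputable def bx (a b : ℕ → ℤ) (M : ℕ) : Finset (ℤ × ℤ) := Icc (a M) (b M) ×ˢ Icc (-(M : ℤ)) M

theorem mem_bx {a b : ℕ → ℤ} {M : ℕ} {y : ℤ × ℤ} :
    y ∈ bx a b M ↔ (a M ≤ y.1 ∧ y.1 ≤ b M) ∧ -(M : ℤ) ≤ y.2 ∧ y.2 ≤ M := by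
  unfold bx
  rw [Finset.mem_product, Finset.mem_Icc, Finset.mem_Icc]

/-- a family of finite sets which exhausts the host `H` -/
structure Exh (H : Set (ℤ × ℤ)) (o : ℤ × ℤ) (B : ℕ → Finset (ℤ × ℤ)) : Prop where
  sub : ∀ (M : ℕ) (y : ℤ × ℤ), y ∈ B M → y ∈ H
  ex : ∀ (M : ℕ) (y : ℤ × ℤ), y ∈ H → l1 o y < M → y ∈ B M

theorem exists_lim {H : Set (ℤ × ℤ)} {o : ℤ × ℤ} {B : ℕ → Finset (ℤ × ℤ)} (hB : Exh H o B) :
    ∃ p : ℝ, Tendsto (fun M => (occ nb (B M) o : ℝ)) atTop (𝓝 p) ∧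
      ∀ (S : Finset (ℤ × ℤ)) (L : ℕ), (∀ y, l1 o y < L → (y ∈ S ↔ y ∈ H)) →
        |(occ nb S o : ℝ) - p| ≤ er L := by
  have key : ∀ (S : Finset (ℤ × ℤ)) (L : ℕ), (∀ y, l1 o y < L → (y ∈ S ↔ y ∈ H)) →
      ∀ M, L ≤ M → |(occ nb S o : ℝ) - occ nb (B M) o| ≤ er L := by
    intro S L hS M hM
    refine occ_near S (B M) o L fun y hy => ?_
    rw [hS y hy]
    refine ⟨fun h => hB.ex M y h (hy.trans_le (by exact_mod_cast hM)), fun h => hB.sub M y h⟩
  have hBB : ∀ L y, l1 o y < (L : ℕ) → (y ∈ B L ↔ y ∈ H) := fun L y hy =>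
    ⟨fun h => hB.sub L y h, fun h => hB.ex L y h hy⟩
  have hcau : CauchySeq (fun M => (occ nb (B M) o : ℝ)) := by
    rw [Metric.cauchySeq_iff']
    intro ε hε
    obtain ⟨L, hL⟩ := (er_tendsto.eventually (gt_mem_nhds hε)).exists
    refine ⟨L, fun n hn => ?_⟩
    rw [Real.dist_eq, abs_sub_comm]
    exact (key (B L) L (hBB L) n hn).trans_lt hL
  obtain ⟨p, hp⟩ := cauchySeq_tendsto_of_complete hcau
  refine ⟨p, hp, fun S L hS => ?_⟩
  have h1 : Tendsto (fun M => |(occ nb S o : ℝ) - occ nb (B M) o|) atTop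
      (𝓝 |(occ nb S o : ℝ) - p|) := (tendsto_const_nhds.sub hp).abs
  refine le_of_tendsto h1 ?_
  filter_upwards [eventually_ge_atTop L] with M hM using key S L hS M hM

/-- a finite set is covered by the boxes -/
theorem l1_bdd (C : Finset (ℤ × ℤ)) (o : ℤ × ℤ) : ∃ M : ℕ, ∀ x ∈ C, l1 o x < M := by
  obtain ⟨M, hM⟩ : ∃ M : ℕ, M = ∑ x ∈ C, (l1 o x).toNat + 1 := ⟨_, rfl⟩
  refine ⟨M, fun x hx => ?_⟩
  have h1 : (l1 o x).toNat ≤ ∑ x ∈ C, (l1 o x).toNat :=
    Finset.single_le_sum (f := fun x => (l1 o x).toNat) (fun _ _ => Nat.zero_le _) hx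
  have h2 : l1 o x ≤ (l1 o x).toNat := Int.self_le_toNat _
  have h3 : ((l1 o x).toNat : ℤ) < M := by
    rw [hM]
    exact_mod_cast Nat.lt_succ_of_le h1
  linarith

/-- lower bracket for the limit -/
theorem lim_lower {H : Set (ℤ × ℤ)} {o : ℤ × ℤ} {B : ℕ → Finset (ℤ × ℤ)} (hB : Exh H o B) {p : ℝ}
    (hp : Tendsto (fun M => (occ nb (B M) o : ℝ)) atTop (𝓝 p)) (C : Finset (ℤ × ℤ)) (ho : o ∈ C)
    (hCH : ∀ x ∈ C, x ∈ H)
    (hC : ∀ x ∈ C, ∀ y ∈ nb x, y ∈ H → y ∉ C → par o y) : (occ nb C o : ℝ) ≤ p := by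
  obtain ⟨M0, hM0⟩ := l1_bdd C o
  refine ge_of_tendsto hp ?_
  filter_upwards [eventually_ge_atTop M0] with M hM
  have h1 := bracket_lower H C (B M) o 0 ho
    (fun x hx => by
      rw [add_zero]
      exact hB.ex M x (hCH x hx) ((hM0 x hx).trans_le (by exact_mod_cast hM)))
    (fun y hy => by
      rw [sub_zero]
      exact hB.sub M y hy) hC
  rw [add_zero] at h1
  exact_mod_cast h1

/-- upper bracket for the limit -/
theorem lim_upper {H : Set (ℤ × ℤ)} {o : ℤ × ℤ} {B : ℕ → Finset (ℤ × ℤ)} (hB : Exh H o B) {p : ℝ}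
    (hp : Tendsto (fun M => (occ nb (B M) o : ℝ)) atTop (𝓝 p)) (C : Finset (ℤ × ℤ)) (ho : o ∈ C)
    (hCH : ∀ x ∈ C, x ∈ H)
    (hC : ∀ x ∈ C, ∀ y ∈ nb x, y ∈ H → y ∉ C → ¬ par o y) : p ≤ (occ nb C o : ℝ) := by
  obtain ⟨M0, hM0⟩ := l1_bdd C o
  refine le_of_tendsto hp ?_
  filter_upwards [eventually_ge_atTop M0] with M hM
  have h1 := bracket_upper H C (B M) o 0 ho
    (fun x hx => by
      rw [add_zero]
      exact hB.ex M x (hCH x hx) ((hM0 x hx).trans_le (by exact_mod_cast hM)))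
    (fun y hy => by
      rw [sub_zero]
      exact hB.sub M y hy) hC
  rw [add_zero] at h1
  exact_mod_cast h1

theorem l1_shift (x y τ : ℤ × ℤ) : l1 (x + τ) (y + τ) = l1 x y := by
  unfold l1
  rw [Prod.fst_add, Prod.fst_add, Prod.snd_add, Prod.snd_add, add_sub_add_right_eq_sub,
    add_sub_add_right_eq_sub]

/-- a point deep inside -/
theorem deep {H : Set (ℤ × ℤ)} {o : ℤ × ℤ} {p : ℝ}
    (hp : ∀ (S : Finset (ℤ × ℤ)) (L : ℕ), (∀ y, l1 o y < L → (y ∈ S ↔ y ∈ H)) →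
        |(occ nb S o : ℝ) - p| ≤ er L) (A : Finset (ℤ × ℤ)) (τ : ℤ × ℤ) (L : ℕ) (ho : o + τ ∈ A)
    (hA : ∀ y, l1 o y < L → (y + τ ∈ A ↔ y ∈ H)) : |(occ nb A (o + τ) : ℝ) - p| ≤ er L := by
  have h1 : A = (A.image (fun x => x - τ)).image (fun x => x + τ) := by
    rw [Finset.image_image]
    have : ((fun x : ℤ × ℤ => x + τ) ∘ fun x => x - τ) = id := by
      funext x
      simp
    rw [this, Finset.image_id]
  rw [h1, occ_shift (A.image (fun x => x - τ)) o τ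
    (Finset.mem_image.2 ⟨o + τ, ho, by simp⟩)]
  refine hp _ L fun y hy => ?_
  rw [← hA y hy, Finset.mem_image]
  constructor
  · rintro ⟨x, hx, rfl⟩
    simpa using hx
  · intro h
    exact ⟨y + τ, h, by simp⟩

end Pool.Agent.H98.RSA
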