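import Pool.Agent.H98.RSA.Lim

/-!
# Random sequential adsorption (MP_eaa50a_pr): the square lattice and the strips
-/

set_option autoImplicit false

open Finset Filter Topology
open scoped Nat

namespace Pool.Agent.H98.RSA

theorem mem_grid {k n : ℕ} {y : ℤ × ℤ} :
    y ∈ grid k n ↔ (1 ≤ y.1 ∧ y.1 ≤ k) ∧ 1 ≤ y.2 ∧ y.2 ≤ n := by
  unfold grid
  rw [Finset.mem_product, Finset.mem_Icc, Finset.mem_Icc]

theorem grid_card (k n : ℕ) : (grid k n).card = k * n := by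
  unfold grid
  rw [Finset.card_product, Int.card_Icc, Int.card_Icc]
  simp

/-- the good rows -/
noncomputable def gd (L n : ℕ) : Finset ℤ := Finset.Icc (L : ℤ) (n + 1 - L)

theorem bad_card (L n : ℕ) : (Finset.Icc (1 : ℤ) n \ gd L n).card ≤ 2 * L := by
  have h1 : Finset.Icc (1 : ℤ) n \ gd L n ⊆ Finset.Icc (1 : ℤ) L ∪ Finset.Icc ((n : ℤ) + 1 - L) n := by
    intro t ht
    unfold gd at ht
    rw [Finset.mem_sdiff, Finset.mem_Icc, Finset.mem_Icc] at ht
    rw [Finset.mem_union, Finset.mem_Icc, Finset.mem_Icc]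
    omega
  refine (Finset.card_le_card h1).trans ((Finset.card_union_le _ _).trans ?_)
  rw [Int.card_Icc, Int.card_Icc]
  omega

theorem ratio_tendsto (c : ℝ) : Tendsto (fun n : ℕ => c / (n : ℝ)) atTop (𝓝 0) :=
  tendsto_const_nhds.div_atTop tendsto_natCast_atTop_atTop

/-! ### The square lattice -/

/-- boxes -/
noncomputable def bp (M : ℕ) : Finset (ℤ × ℤ) := Finset.Icc (-(M : ℤ)) M ×ˢ Finset.Icc (-(M : ℤ)) M

theorem exh_plane : Exh Set.univ (0, 0) bp := by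
  refine ⟨fun _ _ _ => Set.mem_univ _, fun M y _ h => ?_⟩
  unfold bp
  unfold l1 at h
  rw [Finset.mem_product, Finset.mem_Icc, Finset.mem_Icc]
  simp only [zero_sub, abs_neg] at h
  have h1 := abs_nonneg y.1
  have h2 := abs_nonneg y.2
  have h3 := abs_lt.1 (show |y.1| < M by linarith)
  have h4 := abs_lt.1 (show |y.2| < M by linarith)
  omega

theorem plane_deep {p : ℝ} (hp : ∀ (S : Finset (ℤ × ℤ)) (L : ℕ),
      (∀ y, l1 (0, 0) y < L → (y ∈ S ↔ y ∈ (Set.univ : Set (ℤ × ℤ)))) →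
      |(occ nb S (0, 0) : ℝ) - p| ≤ er L) (L n : ℕ) (v : ℤ × ℤ)
    (hv : v ∈ grid n n) (hg : v ∈ gd L n ×ˢ gd L n) : |(occ nb (grid n n) v : ℝ) - p| ≤ er L := by
  have h0 : (0, 0) + v = v := Prod.ext (zero_add _) (zero_add _)
  have h := deep hp (grid n n) v L (by rw [h0]; exact hv) (fun y hy => ?_)
  · rwa [h0] at h
  · refine ⟨fun _ => Set.mem_univ _, fun _ => ?_⟩
    unfold l1 at hy
    unfold gd at hg
    rw [Finset.mem_product, Finset.mem_Icc, Finset.mem_Icc] at hg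
    rw [mem_grid, Prod.fst_add, Prod.snd_add]
    simp only [zero_sub, abs_neg] at hy
    have h1 := abs_nonneg y.1
    have h2 := abs_nonneg y.2
    have h3 := abs_lt.1 (show |y.1| < L by linarith)
    have h4 := abs_lt.1 (show |y.2| < L by linarith)
    omega

theorem abs_sub_le_one {a p : ℝ} (h1 : 0 ≤ a) (h2 : a ≤ 1) (h3 : 0 ≤ p) (h4 : p ≤ 1) :
    |a - p| ≤ 1 := abs_le.2 ⟨by linarith, by linarith⟩

theorem occ_real_nonneg (A : Finset (ℤ × ℤ)) (v : ℤ × ℤ) : (0 : ℝ) ≤ occ nb A v := by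
  exact_mod_cast occ_nonneg' nb A v

theorem occ_real_le_one (A : Finset (ℤ × ℤ)) (v : ℤ × ℤ) : (occ nb A v : ℝ) ≤ 1 := by
  exact_mod_cast occ_le_one' nb A v

/-- THE SQUARE LATTICE. -/
theorem plane : ∃ m : ℝ,
    Tendsto (fun n : ℕ => meanSize nb (grid n n) / (n : ℝ) ^ 2) atTop (𝓝 m) ∧
    (∀ C : Finset (ℤ × ℤ), (0, 0) ∈ C →
      (∀ x ∈ C, ∀ y ∈ nb x, y ∉ C → par (0, 0) y) → (occ nb C (0, 0) : ℝ) ≤ m) ∧
    (∀ C : Finset (ℤ × ℤ), (0, 0) ∈ C →
      (∀ x ∈ C, ∀ y ∈ nb x, y ∉ C → ¬ par (0, 0) y) → m ≤ (occ nb C (0, 0) : ℝ)) ∧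
    ∀ (C : Finset (ℤ × ℤ)) (L : ℕ), (∀ y, l1 (0, 0) y < L → y ∈ C) →
      |(occ nb C (0, 0) : ℝ) - m| ≤ er L := by
  obtain ⟨p, hp, hp2⟩ := exists_lim exh_plane
  have h0 : 0 ≤ p := ge_of_tendsto' hp fun M => occ_real_nonneg _ _
  have h1 : p ≤ 1 := le_of_tendsto' hp fun M => occ_real_le_one _ _
  refine ⟨p, ?_, ?_, ?_, ?_⟩
  · have h := avg_tendsto (fun n => grid n n) (fun L n => gd L n ×ˢ gd L n)
      (fun n v => (occ nb (grid n n) v : ℝ)) p er er_nonneg er_tendsto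
      (fun n v => abs_sub_le_one (occ_real_nonneg _ _) (occ_real_le_one _ _) h0 h1)
      (by
        filter_upwards [eventually_ge_atTop 1] with n hn
        rw [grid_card]
        positivity)
      (fun L n v hv hg => plane_deep hp2 L n v hv hg) (fun L _ => ?_)
    · refine h.congr fun n => ?_
      rw [meanSize_eq, grid_card]
      push_cast
      rw [← sq]
    · refine squeeze_zero' (Eventually.of_forall fun n => by positivity) ?_
        (ratio_tendsto (4 * L))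
      filter_upwards [eventually_ge_atTop 1] with n hn
      have hn0 : (0 : ℝ) < n := by exact_mod_cast hn
      have hc : (grid n n \ gd L n ×ˢ gd L n).card ≤ 4 * L * n := by
        have hs : grid n n \ gd L n ×ˢ gd L n ⊆
            (Finset.Icc (1 : ℤ) n \ gd L n) ×ˢ Finset.Icc (1 : ℤ) n ∪
            Finset.Icc (1 : ℤ) n ×ˢ (Finset.Icc (1 : ℤ) n \ gd L n) := by
          intro v hv
          unfold grid at hv
          simp only [Finset.mem_sdiff, Finset.mem_product, Finset.mem_union] at hv ⊢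
          tauto
        refine (Finset.card_le_card hs).trans ((Finset.card_union_le _ _).trans ?_)
        rw [Finset.card_product, Finset.card_product, Int.card_Icc]
        have h2 := bad_card L n
        have h3 : ((n : ℤ) + 1 - 1).toNat = n := by omega
        rw [h3]
        nlinarith
      rw [grid_card, div_le_div_iff₀ (by positivity) hn0]
      have hc2 : ((grid n n \ gd L n ×ˢ gd L n).card : ℝ) ≤ 4 * L * n := by exact_mod_cast hc
      push_cast
      nlinarith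
  · intro C ho hC
    exact lim_lower exh_plane hp C ho (fun _ _ => Set.mem_univ _)
      (fun x hx y hy _ hyC => hC x hx y hy hyC)
  · intro C ho hC
    exact lim_upper exh_plane hp C ho (fun _ _ => Set.mem_univ _)
      (fun x hx y hy _ hyC => hC x hx y hy hyC)
  · intro C L hC
    exact hp2 C L fun y hy => ⟨fun _ => Set.mem_univ _, fun _ => hC y hy⟩

/-! ### The strips -/

/-- the strip with the rows `1, …, k` -/
def strip (k : ℕ) : Set (ℤ × ℤ) := {y | 1 ≤ y.1 ∧ y.1 ≤ k}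

/-- boxes of the strip -/
noncomputable def bs (k M : ℕ) : Finset (ℤ × ℤ) := Finset.Icc 1 (k : ℤ) ×ˢ Finset.Icc (-(M : ℤ)) M

theorem exh_strip (k : ℕ) (i : ℤ) : Exh (strip k) (i, 0) (bs k) := by
  refine ⟨fun M y hy => ?_, fun M y hy h => ?_⟩
  · unfold bs at hy
    rw [Finset.mem_product, Finset.mem_Icc, Finset.mem_Icc] at hy
    exact hy.1
  · unfold bs
    unfold l1 at h
    rw [Finset.mem_product, Finset.mem_Icc, Finset.mem_Icc]
    simp only [zero_sub, abs_neg] at h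
    have h1 := abs_nonneg (i - y.1)
    have h4 := abs_lt.1 (show |y.2| < M by linarith)
    exact ⟨hy, by omega, by omega⟩

theorem strip_deep {k : ℕ} {i : ℤ} {p : ℝ} (hp : ∀ (S : Finset (ℤ × ℤ)) (L : ℕ),
      (∀ y, l1 (i, 0) y < L → (y ∈ S ↔ y ∈ strip k)) →
      |(occ nb S (i, 0) : ℝ) - p| ≤ er L) (L n : ℕ) (t : ℤ) (hi : 1 ≤ i ∧ i ≤ k)
    (ht : t ∈ Finset.Icc (1 : ℤ) n) (hg : t ∈ gd L n) :
    |(occ nb (grid k n) (i, t) : ℝ) - p| ≤ er L := by
  have h0 : (i, 0) + ((0, t) : ℤ × ℤ) = (i, t) := Prod.ext (add_zero _) (zero_add _)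
  rw [Finset.mem_Icc] at ht
  have h := deep hp (grid k n) (0, t) L (by rw [h0, mem_grid]; exact ⟨hi, ht⟩) (fun y hy => ?_)
  · rwa [h0] at h
  · unfold l1 at hy
    unfold gd at hg
    rw [Finset.mem_Icc] at hg
    rw [mem_grid, Prod.fst_add, Prod.snd_add]
    simp only [zero_sub, abs_neg, add_zero] at hy ⊢
    have h1 := abs_nonneg (i - y.1)
    have h4 := abs_lt.1 (show |y.2| < L by linarith)
    constructor
    · intro h
      exact h.1
    · intro h
      exact ⟨h, by omega, by omega⟩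

theorem row_limit {k : ℕ} {i : ℤ} (hi : 1 ≤ i ∧ i ≤ k) {p : ℝ}
    (hp : Tendsto (fun M => (occ nb (bs k M) (i, 0) : ℝ)) atTop (𝓝 p))
    (hp2 : ∀ (S : Finset (ℤ × ℤ)) (L : ℕ), (∀ y, l1 (i, 0) y < L → (y ∈ S ↔ y ∈ strip k)) →
      |(occ nb S (i, 0) : ℝ) - p| ≤ er L) :
    Tendsto (fun n : ℕ => (∑ t ∈ Finset.Icc (1 : ℤ) n, (occ nb (grid k n) (i, t) : ℝ)) / n)
      atTop (𝓝 p) := by
  have h0 : 0 ≤ p := ge_of_tendsto' hp fun M => occ_real_nonneg _ _
  have h1 : p ≤ 1 := le_of_tendsto' hp fun M => occ_real_le_one _ _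
  have hcard : ∀ n : ℕ, (Finset.Icc (1 : ℤ) n).card = n := by
    intro n
    rw [Int.card_Icc]
    omega
  have h := avg_tendsto (fun n : ℕ => Finset.Icc (1 : ℤ) n) (fun L n => gd L n)
    (fun n t => (occ nb (grid k n) (i, t) : ℝ)) p er er_nonneg er_tendsto
    (fun n v => abs_sub_le_one (occ_real_nonneg _ _) (occ_real_le_one _ _) h0 h1)
    (by
      filter_upwards [eventually_ge_atTop 1] with n hn
      rw [hcard]
      exact hn)
    (fun L n t ht hg => strip_deep hp2 L n t hi ht hg) (fun L _ => ?_)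
  · refine h.congr fun n => ?_
    rw [hcard]
  · refine squeeze_zero' (Eventually.of_forall fun n => by positivity) ?_
      (ratio_tendsto (2 * L))
    filter_upwards [eventually_ge_atTop 1] with n hn
    have hn0 : (0 : ℝ) < n := by exact_mod_cast hn
    rw [hcard]
    have := bad_card L n
    have hc2 : ((Finset.Icc (1 : ℤ) n \ gd L n).card : ℝ) ≤ 2 * L := by exact_mod_cast this
    gcongr

/-- THE STRIPS. -/
theorem strips (k : ℕ) : ∃ ρ : ℤ → ℝ,
    Tendsto (fun n : ℕ => meanSize nb (grid k n) / (k * n : ℝ)) atTop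
      (𝓝 ((∑ i ∈ Finset.Icc (1 : ℤ) k, ρ i) / k)) ∧
    ∀ i ∈ Finset.Icc (1 : ℤ) k,
      (∀ C : Finset (ℤ × ℤ), (i, 0) ∈ C → (∀ x ∈ C, x ∈ strip k) →
        (∀ x ∈ C, ∀ y ∈ nb x, y ∈ strip k → y ∉ C → par (i, 0) y) →
        (occ nb C (i, 0) : ℝ) ≤ ρ i) ∧
      (∀ C : Finset (ℤ × ℤ), (i, 0) ∈ C → (∀ x ∈ C, x ∈ strip k) →
        (∀ x ∈ C, ∀ y ∈ nb x, y ∈ strip k → y ∉ C → ¬ par (i, 0) y) →
        ρ i ≤ (occ nb C (i, 0) : ℝ)) ∧
      ∀ (C : Finset (ℤ × ℤ)) (L : ℕ), (∀ x ∈ C, x ∈ strip k) →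
        (∀ y ∈ strip k, l1 (i, 0) y < L → y ∈ C) → |(occ nb C (i, 0) : ℝ) - ρ i| ≤ er L := by
  have hex : ∀ i : ℤ, ∃ p : ℝ, Tendsto (fun M => (occ nb (bs k M) (i, 0) : ℝ)) atTop (𝓝 p) ∧
      ∀ (S : Finset (ℤ × ℤ)) (L : ℕ), (∀ y, l1 (i, 0) y < L → (y ∈ S ↔ y ∈ strip k)) →
        |(occ nb S (i, 0) : ℝ) - p| ≤ er L := fun i => exists_lim (exh_strip k i)
  choose ρ hρ hρ2 using hex
  refine ⟨ρ, ?_, ?_⟩
  · have h1 : Tendsto (fun n : ℕ => (∑ i ∈ Finset.Icc (1 : ℤ) k,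
        (∑ t ∈ Finset.Icc (1 : ℤ) n, (occ nb (grid k n) (i, t) : ℝ)) / n) / k) atTop
        (𝓝 ((∑ i ∈ Finset.Icc (1 : ℤ) k, ρ i) / k)) := by
      refine (tendsto_finsetSum _ fun i hi => ?_).div_const _
      exact row_limit (Finset.mem_Icc.1 hi) (hρ i) (hρ2 i)
    refine h1.congr fun n => ?_
    rw [meanSize_eq]
    unfold grid
    rw [Finset.sum_product, ← Finset.sum_div, div_div, mul_comm (n : ℝ) k]
  · intro i _
    refine ⟨fun C ho hCH hC => lim_lower (exh_strip k i) (hρ i) C ho hCH hC,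
      fun C ho hCH hC => lim_upper (exh_strip k i) (hρ i) C ho hCH hC, fun C L hCH hC => ?_⟩
    exact hρ2 i C L fun y hy => ⟨fun h => hCH y h, fun h => hC y h hy⟩

end Pool.Agent.H98.RSA
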