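import Pool.Agent.H98.RSA.Fast
import Pool.Agent.H98.RSA.Lim2
import Pool.Agent.H98.RSA.TPLC0
import Pool.Agent.H98.RSA.TPUC0
import Pool.Agent.H98.RSA.TPUC1
import Pool.Agent.H98.RSA.TPUC2
import Pool.Agent.H98.RSA.TS1UC0
import Pool.Agent.H98.RSA.TS1LC0
import Pool.Agent.H98.RSA.TS2UC0
import Pool.Agent.H98.RSA.TS2LC0
import Pool.Agent.H98.RSA.TS2LC1

/-!
# Random sequential adsorption (MP_eaa50a_pr): numerical bounds
-/

set_option autoImplicit false
set_option maxRecDepth 100000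

open Finset Filter Topology

namespace Pool.Agent.H98.RSA

/-! ### From masks to clusters -/

/-- the position of the bit `j`: width `W`, the bit `0` is at `(-a, -b)` -/
def pos (W a b j : ℕ) : ℤ × ℤ := ((j % W : ℕ) - (a : ℤ), (j / W : ℕ) - (b : ℤ))

/-- the same with the coordinates exchanged (strips) -/
def pos' (W a b j : ℕ) : ℤ × ℤ := ((j / W : ℕ) - (b : ℤ), (j % W : ℕ) - (a : ℤ))

/-- adjacency of positions -/
def adj (p q : ℤ × ℤ) : Bool :=
  decide ((q.1 = p.1 + 1 ∧ q.2 = p.2) ∨ (q.1 = p.1 - 1 ∧ q.2 = p.2) ∨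
    (q.1 = p.1 ∧ q.2 = p.2 + 1) ∨ (q.1 = p.1 ∧ q.2 = p.2 - 1))

theorem adj_iff (p q : ℤ × ℤ) : adj p q = true ↔ q ∈ nb p := by
  unfold adj
  rw [decide_eq_true_eq, mem_nb, Prod.ext_iff, Prod.ext_iff, Prod.ext_iff, Prod.ext_iff]

/-- the bits of `K` -/
def bl (K : ℕ) : List ℕ := (List.range 128).filter fun j => K.testBit j

theorem mem_bl {K j : ℕ} (hK : K < 2 ^ 128) : j ∈ bl K ↔ j ∈ F K := by
  unfold bl
  rw [List.mem_filter, List.mem_range, mem_F]
  refine ⟨fun h => h.2, fun h => ⟨?_, h⟩⟩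
  by_contra hj
  rw [Nat.testBit_lt_two_pow (hK.trans_le (Nat.pow_le_pow_right (by norm_num) (not_lt.1 hj)))] at h
  exact absurd h (by simp)

/-- positions are injective and preserve the adjacency -/
def okP (W : ℕ) (ψ : ℕ → ℤ × ℤ) (K : ℕ) : Bool :=
  (bl K).all fun x => (bl K).all fun y =>
    (adj (ψ x) (ψ y) == decide (y = x + 1 ∨ x = y + 1 ∨ y = x + W ∨ x = y + W)) &&
      (decide (ψ x = ψ y) == decide (x = y))

/-- the cluster -/
noncomputable def clu (ψ : ℕ → ℤ × ℤ) (K : ℕ) : Finset (ℤ × ℤ) := (F K).image ψ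

theorem occ_clu {W K o : ℕ} {ψ : ℕ → ℤ × ℤ} (hK : K < 2 ^ 128) (h : okP W ψ K = true)
    (ho : o ∈ F K) : occ nb (clu ψ K) (ψ o) = occ (N1 W) (F K) o := by
  have h1 : ∀ x ∈ F K, ∀ y ∈ F K, (ψ y ∈ nb (ψ x) ↔ y ∈ N1 W x) ∧ (ψ x = ψ y ↔ x = y) := by
    intro x hx y hy
    unfold okP at h
    rw [List.all_eq_true] at h
    have h2 := h x ((mem_bl hK).2 hx)
    rw [List.all_eq_true] at h2
    have h3 := h2 y ((mem_bl hK).2 hy)
    rw [Bool.and_eq_true] at h3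
    have h4 := eq_of_beq h3.1
    have h5 := eq_of_beq h3.2
    constructor
    · rw [← adj_iff, h4, decide_eq_true_eq, mem_N1]
    · exact decide_eq_decide.1 h5
  exact occ_image (N1 W) nb ψ (fun x hx y hy hxy => (h1 x hx y hy).2.1 hxy)
    (fun x hx y hy => (h1 x hx y hy).1) ho

/-- the outer neighbours of the cluster which satisfy `hst` have the parity `b` -/
def okB (ψ : ℕ → ℤ × ℤ) (K : ℕ) (hst : ℤ × ℤ → Bool) (o : ℤ × ℤ) (b : Bool) : Bool :=
  (bl K).all fun x => hst (ψ x) &&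
    [((ψ x).1 + 1, (ψ x).2), ((ψ x).1 - 1, (ψ x).2), ((ψ x).1, (ψ x).2 + 1),
      ((ψ x).1, (ψ x).2 - 1)].all fun y =>
        !(hst y) || decide (∃ z ∈ bl K, ψ z = y) ||
          (decide ((y.1 + y.2 - (o.1 + o.2)) % 2 = 0) == b)

theorem okB_spec {ψ : ℕ → ℤ × ℤ} {K : ℕ} {hst : ℤ × ℤ → Bool} {o : ℤ × ℤ} {b : Bool}
    (hK : K < 2 ^ 128) (h : okB ψ K hst o b = true) :
    (∀ x ∈ clu ψ K, hst x = true) ∧
    ∀ x ∈ clu ψ K, ∀ y ∈ nb x, hst y = true → y ∉ clu ψ K → (par o y ↔ b = true) := by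
  unfold okB at h
  rw [List.all_eq_true] at h
  constructor
  · intro x hx
    obtain ⟨j, hj, rfl⟩ := Finset.mem_image.1 hx
    have h1 := h j ((mem_bl hK).2 hj)
    rw [Bool.and_eq_true] at h1
    exact h1.1
  · intro x hx y hy hyh hyC
    obtain ⟨j, hj, rfl⟩ := Finset.mem_image.1 hx
    have h1 := h j ((mem_bl hK).2 hj)
    rw [Bool.and_eq_true, List.all_eq_true] at h1
    have h2 := h1.2 y (by
      rw [mem_nb] at hy
      simp only [List.mem_cons, List.not_mem_nil, or_false]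
      exact hy)
    rw [hyh] at h2
    have h3 : decide (∃ z ∈ bl K, ψ z = y) = false := by
      rw [decide_eq_false_iff_not]
      rintro ⟨z, hz, hzy⟩
      exact hyC (Finset.mem_image.2 ⟨z, (mem_bl hK).1 hz, hzy⟩)
    rw [h3] at h2
    simp only [Bool.not_true, Bool.false_or] at h2
    have h4 := eq_of_beq h2
    unfold par
    rw [Int.even_iff, ← h4, decide_eq_true_eq]

/-! ### The certificates -/

theorem tbl_lower (P : Par) (hW : 2 ≤ P.W) (hp : Pat P.W P.p) (ho : P.W ≤ P.o) (hS : Sym P)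
    (M A n : ℕ) (h : ∀ s, s < n → ∃ T, chk P M A n cl s T = true) (s : ℕ) (hs : s < n) :
    (vl A s : ℚ) ≤ 2 ^ 30 * occ (N1 P.W) (F (msk P M s)) P.o :=
  lower_sound P hW hp ho hS M A n (fun s hs => (h s hs).elim fun _ hT => chk_base hT)
    h _ s hs rfl

theorem tbl_upper (P : Par) (hW : 2 ≤ P.W) (hp : Pat P.W P.p) (ho : P.W ≤ P.o) (hS : Sym P)
    (M A n : ℕ) (h : ∀ s, s < n → ∃ T, chk P M A n cu s T = true) (s : ℕ) (hs : s < n) :
    2 ^ 30 * occ (N1 P.W) (F (msk P M s)) P.o ≤ (vl A s : ℚ) :=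
  upper_sound P hW hp ho hS M A n (fun s hs => (h s hs).elim fun _ hT => chk_base hT)
    h _ s hs rfl

theorem split_lt {Q : ℕ → Prop} {a b : ℕ} (h1 : ∀ s, s < a → Q s)
    (h2 : ∀ s, a ≤ s → s < b → Q s) : ∀ s, s < b → Q s := by
  intro s hs
  by_cases h : s < a
  · exact h1 s h
  · exact h2 s (not_lt.1 h) hs

theorem tPL : ∀ s, s < 1979 → ∃ T, chk PP TPL.M TPL.A 1979 cl s T = true := fun s hs =>
  run_spec TPL.l0 0 1979 (by rw [← rPl_eq]; exact TPL.run0) s (Nat.zero_le _) hs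

theorem tPU : ∀ s, s < 7885 → ∃ T, chk PP TPU.M TPU.A 7885 cu s T = true := by
  refine split_lt (a := 6320) (split_lt (a := 3879) ?_ ?_) ?_
  · exact fun s hs => run_spec TPU.l0 0 3879 (by rw [← rPu_eq]; exact TPU.run0) s
      (Nat.zero_le _) hs
  · exact run_spec TPU.l1 3879 6320 (by rw [← rPu_eq]; exact TPU.run1)
  · exact run_spec TPU.l2 6320 7885 (by rw [← rPu_eq]; exact TPU.run2)

theorem tS1U : ∀ s, s < 335 → ∃ T, chk P1 TS1U.M TS1U.A 335 cu s T = true := fun s hs =>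
  run_spec TS1U.l0 0 335 (by rw [← rSu_eq1]; exact TS1U.run0) s (Nat.zero_le _) hs

theorem tS1L : ∀ s, s < 2503 → ∃ T, chk P1 TS1L.M TS1L.A 2503 cl s T = true := fun s hs =>
  run_spec TS1L.l0 0 2503 (by rw [← rSl_eq1]; exact TS1L.run0) s (Nat.zero_le _) hs

theorem tS2U : ∀ s, s < 1089 → ∃ T, chk P2 TS2U.M TS2U.A 1089 cu s T = true := fun s hs =>
  run_spec TS2U.l0 0 1089 (by rw [← rSu_eq2]; exact TS2U.run0) s (Nat.zero_le _) hs

theorem tS2L : ∀ s, s < 7359 → ∃ T, chk P2 TS2L.M TS2L.A 7359 cl s T = true := by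
  refine split_lt (a := 4738) ?_ ?_
  · exact fun s hs => run_spec TS2L.l0 0 4738 (by rw [← rSl_eq2]; exact TS2L.run0) s
      (Nat.zero_le _) hs
  · exact run_spec TS2L.l1 4738 7359 (by rw [← rSl_eq2]; exact TS2L.run1)

end Pool.Agent.H98.RSA
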