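import Pool.Agent.H98.RSA.Num

/-!
# Random sequential adsorption (MP_eaa50a_pr): numerical bounds for the square lattice and the strip
of width 4
-/

set_option autoImplicit false
set_option maxRecDepth 100000

open Finset Filter Topology

namespace Pool.Agent.H98.RSA

/-! ### The square lattice -/

theorem kPL : msk PP TPL.M 1978 = 99462678093430500970496 ∧ vl TPL.A 1978 = 382034155 := by
  decide +kernel

theorem kPU : msk PP TPU.M 7884 = 19409069493401512717639696 ∧ vl TPU.A 7884 = 394327087 := by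
  decide +kernel

/-- positions for the square lattice -/
def ψP (j : ℕ) : ℤ × ℤ := pos 10 4 4 j

theorem cPL : okP 10 ψP 99462678093430500970496 = true ∧
    okB ψP 99462678093430500970496 (fun _ => true) (0, 0) true = true ∧ ψP 44 = (0, 0) := by
  decide +kernel

theorem cPU : okP 10 ψP 19409069493401512717639696 = true ∧
    okB ψP 19409069493401512717639696 (fun _ => true) (0, 0) false = true := by
  decide +kernel

theorem bit_mem {K j : ℕ} (h : K.testBit j = true) : j ∈ F K := mem_F.2 h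

/-- the lower bound for the density of the square lattice -/
theorem plane_lower (m : ℝ) (hm : ∀ C : Finset (ℤ × ℤ), (0, 0) ∈ C →
      (∀ x ∈ C, ∀ y ∈ nb x, y ∉ C → par (0, 0) y) → (occ nb C (0, 0) : ℝ) ≤ m) :
    0.35579 < m := by
  have h1 := tbl_lower PP (by decide) pat_PP (by decide) sym_PP TPL.M TPL.A 1979 tPL 1978
    (by norm_num)
  rw [kPL.1, kPL.2] at h1
  have hK : (99462678093430500970496 : ℕ) < 2 ^ 128 := by norm_num
  have h2 := occ_clu (W := 10) (o := 44) hK cPL.1 (bit_mem (by decide +kernel))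
  rw [cPL.2.2] at h2
  obtain ⟨-, h3⟩ := okB_spec hK cPL.2.1
  have h4 := hm (clu ψP 99462678093430500970496)
    (by rw [← cPL.2.2]; exact Finset.mem_image_of_mem _ (bit_mem (by decide +kernel)))
    (fun x hx y hy hyC => (h3 x hx y hy rfl hyC).2 rfl)
  rw [h2] at h4
  have h5 : (382034155 : ℚ) ≤ 2 ^ 30 * occ (N1 10) (F 99462678093430500970496) 44 := by
    exact_mod_cast h1
  have h6 : (382034155 : ℝ) ≤ 2 ^ 30 * ((occ (N1 10) (F 99462678093430500970496) 44 : ℚ) : ℝ) := by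
    exact_mod_cast h5
  norm_num at h6 ⊢
  linarith

/-- the upper bound for the density of the square lattice -/
theorem plane_upper (m : ℝ) (hm : ∀ C : Finset (ℤ × ℤ), (0, 0) ∈ C →
      (∀ x ∈ C, ∀ y ∈ nb x, y ∉ C → ¬ par (0, 0) y) → m ≤ (occ nb C (0, 0) : ℝ)) :
    m < 0.36725 := by
  have h1 := tbl_upper PP (by decide) pat_PP (by decide) sym_PP TPU.M TPU.A 7885 tPU 7884
    (by norm_num)
  rw [kPU.1, kPU.2] at h1
  have hK : (19409069493401512717639696 : ℕ) < 2 ^ 128 := by norm_num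
  have h2 := occ_clu (W := 10) (o := 44) hK cPU.1 (bit_mem (by decide +kernel))
  rw [cPL.2.2] at h2
  obtain ⟨-, h3⟩ := okB_spec hK cPU.2
  have h4 := hm (clu ψP 19409069493401512717639696)
    (by rw [← cPL.2.2]; exact Finset.mem_image_of_mem _ (bit_mem (by decide +kernel)))
    (fun x hx y hy hyC hp => absurd ((h3 x hx y hy rfl hyC).1 hp) (by decide))
  rw [h2] at h4
  have h5 : 2 ^ 30 * occ (N1 10) (F 19409069493401512717639696) 44 ≤ (394327087 : ℚ) := by
    exact_mod_cast h1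
  have h6 : 2 ^ 30 * ((occ (N1 10) (F 19409069493401512717639696) 44 : ℚ) : ℝ) ≤
      (394327087 : ℝ) := by
    exact_mod_cast h5
  norm_num at h6 ⊢
  linarith

/-! ### The strip of width 4 -/

theorem k1U : msk P1 TS1U.M 334 = 31542248348835840 ∧ vl TS1U.A 334 = 441011502 := by
  decide +kernel

theorem k1L : msk P1 TS1L.M 2502 = 69840720873123840 ∧ vl TS1L.A 2502 = 437524467 := by
  decide +kernel

theorem k2U : msk P2 TS2U.M 1088 = 69840720866820096 ∧ vl TS2U.A 1088 = 389741305 := by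
  decide +kernel

theorem k2L : msk P2 TS2L.M 7358 = 143059553821384704 ∧ vl TS2L.A 7358 = 388358764 := by
  decide +kernel

/-- positions for the strip -/
def ψS (j : ℕ) : ℤ × ℤ := pos' 12 5 0 j

/-- positions for the reflected strip -/
def ψT (j : ℕ) : ℤ × ℤ := (5 - (pos' 12 5 0 j).1, (pos' 12 5 0 j).2)

/-- the strip -/
def hs (y : ℤ × ℤ) : Bool := decide (1 ≤ y.1 ∧ y.1 ≤ 4)

theorem hs_iff (y : ℤ × ℤ) : hs y = true ↔ y ∈ strip 4 := by
  unfold hs strip
  rw [decide_eq_true_eq]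
  exact Iff.rfl

/-- lower bracket in the strip -/
theorem S_lower (ρ : ℝ) (i : ℤ) (ψ : ℕ → ℤ × ℤ) (K o v : ℕ)
    (hρ : ∀ C : Finset (ℤ × ℤ), (i, 0) ∈ C → (∀ x ∈ C, x ∈ strip 4) →
        (∀ x ∈ C, ∀ y ∈ nb x, y ∈ strip 4 → y ∉ C → par (i, 0) y) →
        (occ nb C (i, 0) : ℝ) ≤ ρ) (hK : K < 2 ^ 128) (h1 : okP 12 ψ K = true)
    (h2 : okB ψ K hs (i, 0) true = true) (h3 : ψ o = (i, 0)) (ho : o ∈ F K)
    (h4 : (v : ℚ) ≤ 2 ^ 30 * occ (N1 12) (F K) o) : (v : ℝ) / 2 ^ 30 ≤ ρ := by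
  have e1 := occ_clu (W := 12) (o := o) hK h1 ho
  rw [h3] at e1
  obtain ⟨e0, e2⟩ := okB_spec hK h2
  have e3 := hρ (clu ψ K) (by rw [← h3]; exact Finset.mem_image_of_mem _ ho)
    (fun x hx => (hs_iff x).1 (e0 x hx))
    (fun x hx y hy hyH hyC => (e2 x hx y hy ((hs_iff y).2 hyH) hyC).2 rfl)
  rw [e1] at e3
  have e4 : (v : ℝ) ≤ 2 ^ 30 * ((occ (N1 12) (F K) o : ℚ) : ℝ) := by exact_mod_cast h4
  rw [div_le_iff₀ (by positivity)]
  linarith

/-- upper bracket in the strip -/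
theorem S_upper (ρ : ℝ) (i : ℤ) (ψ : ℕ → ℤ × ℤ) (K o v : ℕ)
    (hρ : ∀ C : Finset (ℤ × ℤ), (i, 0) ∈ C → (∀ x ∈ C, x ∈ strip 4) →
        (∀ x ∈ C, ∀ y ∈ nb x, y ∈ strip 4 → y ∉ C → ¬ par (i, 0) y) →
        ρ ≤ (occ nb C (i, 0) : ℝ)) (hK : K < 2 ^ 128) (h1 : okP 12 ψ K = true)
    (h2 : okB ψ K hs (i, 0) false = true) (h3 : ψ o = (i, 0)) (ho : o ∈ F K)
    (h4 : 2 ^ 30 * occ (N1 12) (F K) o ≤ (v : ℚ)) : ρ ≤ (v : ℝ) / 2 ^ 30 := by
  have e1 := occ_clu (W := 12) (o := o) hK h1 ho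
  rw [h3] at e1
  obtain ⟨e0, e2⟩ := okB_spec hK h2
  have e3 := hρ (clu ψ K) (by rw [← h3]; exact Finset.mem_image_of_mem _ ho)
    (fun x hx => (hs_iff x).1 (e0 x hx))
    (fun x hx y hy hyH hyC hp => absurd ((e2 x hx y hy ((hs_iff y).2 hyH) hyC).1 hp) (by decide))
  rw [e1] at e3
  have e4 : 2 ^ 30 * ((occ (N1 12) (F K) o : ℚ) : ℝ) ≤ (v : ℝ) := by exact_mod_cast h4
  rw [le_div_iff₀ (by positivity)]
  linarith

/-- the density of the strip of width 4 -/
theorem strip4 : ∃ m : ℝ, Tendsto (fun n : ℕ => meanSize nb (grid 4 n) / (4 * n : ℝ)) atTop (𝓝 m) ∧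
    0.38458 < m ∧ m < 0.38686 := by
  obtain ⟨ρ, h1, h2⟩ := strips 4
  have hsum : ∑ i ∈ Finset.Icc (1 : ℤ) ((4 : ℕ) : ℤ), ρ i = ρ 1 + ρ 2 + ρ 3 + ρ 4 := by
    have : Finset.Icc (1 : ℤ) ((4 : ℕ) : ℤ) = {1, 2, 3, 4} := by decide
    rw [this]
    rw [Finset.sum_insert (by decide), Finset.sum_insert (by decide),
      Finset.sum_insert (by decide), Finset.sum_singleton]
    ring
  rw [hsum] at h1
  refine ⟨(ρ 1 + ρ 2 + ρ 3 + ρ 4) / 4, ?_, ?_⟩
  · simpa only [Nat.cast_ofNat] using h1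
  obtain ⟨a1, a2, -⟩ := h2 1 (by decide)
  obtain ⟨b1, b2, -⟩ := h2 2 (by decide)
  obtain ⟨c1, c2, -⟩ := h2 3 (by decide)
  obtain ⟨d1, d2, -⟩ := h2 4 (by decide)
  have t1U := tbl_upper P1 (by decide) pat_P1 (by decide) sym_P1 TS1U.M TS1U.A 335 tS1U 334
    (by norm_num)
  rw [k1U.1, k1U.2] at t1U
  have t1L := tbl_lower P1 (by decide) pat_P1 (by decide) sym_P1 TS1L.M TS1L.A 2503 tS1L 2502
    (by norm_num)
  rw [k1L.1, k1L.2] at t1L
  have t2U := tbl_upper P2 (by decide) pat_P2 (by decide) sym_P2 TS2U.M TS2U.A 1089 tS2U 1088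
    (by norm_num)
  rw [k2U.1, k2U.2] at t2U
  have t2L := tbl_lower P2 (by decide) pat_P2 (by decide) sym_P2 TS2L.M TS2L.A 7359 tS2L 7358
    (by norm_num)
  rw [k2L.1, k2L.2] at t2L
  have r1U := S_upper (ρ 1) 1 ψS 31542248348835840 17 441011502 a2 (by norm_num)
    (by decide +kernel) (by decide +kernel) (by decide +kernel) (bit_mem (by decide +kernel)) t1U
  have r4U := S_upper (ρ 4) 4 ψT 31542248348835840 17 441011502 d2 (by norm_num)
    (by decide +kernel) (by decide +kernel) (by decide +kernel) (bit_mem (by decide +kernel)) t1U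
  have r1L := S_lower (ρ 1) 1 ψS 69840720873123840 17 437524467 a1 (by norm_num)
    (by decide +kernel) (by decide +kernel) (by decide +kernel) (bit_mem (by decide +kernel)) t1L
  have r4L := S_lower (ρ 4) 4 ψT 69840720873123840 17 437524467 d1 (by norm_num)
    (by decide +kernel) (by decide +kernel) (by decide +kernel) (bit_mem (by decide +kernel)) t1L
  have r2U := S_upper (ρ 2) 2 ψS 69840720866820096 29 389741305 b2 (by norm_num)
    (by decide +kernel) (by decide +kernel) (by decide +kernel) (bit_mem (by decide +kernel)) t2U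
  have r3U := S_upper (ρ 3) 3 ψT 69840720866820096 29 389741305 c2 (by norm_num)
    (by decide +kernel) (by decide +kernel) (by decide +kernel) (bit_mem (by decide +kernel)) t2U
  have r2L := S_lower (ρ 2) 2 ψS 143059553821384704 29 388358764 b1 (by norm_num)
    (by decide +kernel) (by decide +kernel) (by decide +kernel) (bit_mem (by decide +kernel)) t2L
  have r3L := S_lower (ρ 3) 3 ψT 143059553821384704 29 388358764 c1 (by norm_num)
    (by decide +kernel) (by decide +kernel) (by decide +kernel) (bit_mem (by decide +kernel)) t2L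
  norm_num at r1U r4U r1L r4L r2U r3U r2L r3L ⊢
  constructor <;> linarith

end Pool.Agent.H98.RSA
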