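import Pool.Agent.H98.RSA.Core

/-!
# The influence of far vertices: self-avoiding paths
-/

set_option autoImplicit false

open Finset
open scoped Nat

namespace Pool.Agent.H98.RSA

variable {V : Type} [DecidableEq V]

/-- the number of self-avoiding paths of length `j` in `U` from `v` to `w` -/
def sw (N : V → Finset V) : ℕ → Finset V → V → V → ℕ
  | 0, U, v, w => if v = w ∧ v ∈ U then 1 else 0
  | j + 1, U, v, w => if v ∈ U then ∑ y ∈ N v, sw N j (U.erase v) y w else 0

theorem sw_mono (N : V → Finset V) : ∀ (j : ℕ) (U U' : Finset V) (v w : V), U ⊆ U' →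
    sw N j U v w ≤ sw N j U' v w := by
  intro j
  induction j with
  | zero =>
    intro U U' v w h
    unfold sw
    by_cases h1 : v = w ∧ v ∈ U
    · rw [if_pos h1, if_pos ⟨h1.1, h h1.2⟩]
    · rw [if_neg h1]
      exact Nat.zero_le _
  | succ j ih =>
    intro U U' v w h
    unfold sw
    by_cases h1 : v ∈ U
    · rw [if_pos h1, if_pos (h h1)]
      exact Finset.sum_le_sum fun y _ => ih _ _ _ _ (Finset.erase_subset_erase v h)
    · rw [if_neg h1]
      exact Nat.zero_le _

theorem sw_notMem (N : V → Finset V) (j : ℕ) {U : Finset V} {v : V} (w : V) (hv : v ∉ U) :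
    sw N j U v w = 0 := by
  cases j with
  | zero => unfold sw; rw [if_neg (fun h => hv h.2)]
  | succ j => unfold sw; rw [if_neg hv]

/-- deleting a vertex, counted over all vertices -/
theorem sw_delete (N : V → Finset V) : ∀ (j : ℕ) (U : Finset V) (v w : V),
    ∑ x ∈ U, sw N j (U.erase x) v w + (j + 1) * sw N j U v w = U.card * sw N j U v w := by
  intro j
  induction j with
  | zero =>
    intro U v w
    by_cases hv : v ∈ U
    · by_cases hvw : v = w
      · have h1 : ∀ x ∈ U, sw N 0 (U.erase x) v w = if x = v then 0 else 1 := by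
          intro x _
          unfold sw
          by_cases hxv : x = v
          · rw [if_pos hxv, if_neg]
            rintro ⟨-, h⟩
            rw [hxv] at h
            exact Finset.notMem_erase v U h
          · rw [if_neg hxv, if_pos ⟨hvw, Finset.mem_erase.2 ⟨fun h => hxv h.symm, hv⟩⟩]
        have h2 : sw N 0 U v w = 1 := by unfold sw; rw [if_pos ⟨hvw, hv⟩]
        rw [Finset.sum_congr rfl h1, h2, mul_one, mul_one, zero_add]
        have h3 : ∑ x ∈ U, (if x = v then 0 else 1) + ∑ x ∈ U, (if x = v then 1 else 0) = U.card := by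
          rw [← Finset.sum_add_distrib, Finset.card_eq_sum_ones]
          refine Finset.sum_congr rfl fun x _ => ?_
          split_ifs <;> rfl
        rw [Finset.sum_ite_eq' U v (fun _ => 1), if_pos hv] at h3
        exact h3
      · have h1 : ∀ U', sw N 0 U' v w = 0 := by
          intro U'
          unfold sw
          rw [if_neg (fun h => hvw h.1)]
        simp only [h1, Finset.sum_const_zero, mul_zero, add_zero]
    · have h1 : ∀ x ∈ U, sw N 0 (U.erase x) v w = 0 :=
        fun x _ => sw_notMem N 0 w (fun h => hv (Finset.mem_of_mem_erase h))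
      rw [Finset.sum_eq_zero h1, sw_notMem N 0 w hv, mul_zero, mul_zero, add_zero]
  | succ j ih =>
    intro U v w
    by_cases hv : v ∈ U
    · have h1 : ∀ x ∈ U.erase v, sw N (j + 1) (U.erase x) v w =
          ∑ y ∈ N v, sw N j ((U.erase v).erase x) y w := by
        intro x hx
        rw [sw, if_pos (Finset.mem_erase.2 ⟨(Finset.ne_of_mem_erase hx).symm, hv⟩),
          Finset.erase_right_comm]
      have h2 : ∑ x ∈ U, sw N (j + 1) (U.erase x) v w =
          ∑ y ∈ N v, ∑ x ∈ U.erase v, sw N j ((U.erase v).erase x) y w := by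
        rw [← Finset.add_sum_erase U _ hv, sw_notMem N (j + 1) w (Finset.notMem_erase v U), zero_add,
          Finset.sum_congr rfl h1, Finset.sum_comm]
      have h3 : sw N (j + 1) U v w = ∑ y ∈ N v, sw N j (U.erase v) y w := by
        rw [sw, if_pos hv]
      have hc : U.card = (U.erase v).card + 1 := (Finset.card_erase_add_one hv).symm
      rw [h2, h3, hc, Finset.mul_sum, Finset.mul_sum, ← Finset.sum_add_distrib]
      refine Finset.sum_congr rfl fun y _ => ?_
      have h4 := ih (U.erase v) y w
      rw [add_mul ((U.erase v).card), ← h4]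
      ring
    · have h1 : ∀ x ∈ U, sw N (j + 1) (U.erase x) v w = 0 :=
        fun x _ => sw_notMem N _ w (fun h => hv (Finset.mem_of_mem_erase h))
      rw [Finset.sum_eq_zero h1, sw_notMem N _ w hv, mul_zero, mul_zero, add_zero]

/-- extending a path at its end -/
theorem sw_extend (N : V → Finset V) (hsym : ∀ x y, y ∈ N x → x ∈ N y) :
    ∀ (j : ℕ) (U : Finset V) (v x : V), x ∈ U →
      ∑ y ∈ N x, sw N j (U.erase x) v y ≤ sw N (j + 1) U v x := by
  intro j
  induction j with
  | zero =>
    intro U v x hx
    by_cases hv : v ∈ U.erase x ∧ v ∈ N x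
    · have hvU : v ∈ U := Finset.mem_of_mem_erase hv.1
      have hvx : v ≠ x := Finset.ne_of_mem_erase hv.1
      have h1 : ∑ y ∈ N x, sw N 0 (U.erase x) v y = 1 := by
        have h2 : ∀ y ∈ N x, sw N 0 (U.erase x) v y = if v = y then 1 else 0 := by
          intro y _
          unfold sw
          by_cases h : v = y
          · rw [if_pos h, if_pos ⟨h, hv.1⟩]
          · rw [if_neg h, if_neg (fun h' => h h'.1)]
        rw [Finset.sum_congr rfl h2, Finset.sum_ite_eq, if_pos hv.2]
      rw [h1, sw, if_pos hvU]
      have h3 : sw N 0 (U.erase v) x x = 1 := by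
        unfold sw
        rw [if_pos ⟨rfl, Finset.mem_erase.2 ⟨fun h => hvx h.symm, hx⟩⟩]
      calc 1 = sw N 0 (U.erase v) x x := h3.symm
        _ ≤ ∑ y ∈ N v, sw N 0 (U.erase v) y x :=
          Finset.single_le_sum (f := fun y => sw N 0 (U.erase v) y x) (fun _ _ => Nat.zero_le _)
            (hsym x v hv.2)
    · have h1 : ∑ y ∈ N x, sw N 0 (U.erase x) v y = 0 := by
        refine Finset.sum_eq_zero fun y hy => ?_
        unfold sw
        rw [if_neg]
        rintro ⟨rfl, h⟩
        exact hv ⟨h, hy⟩
      rw [h1]
      exact Nat.zero_le _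
  | succ j ih =>
    intro U v x hx
    by_cases hv : v ∈ U.erase x
    · have hvU : v ∈ U := Finset.mem_of_mem_erase hv
      have hvx : v ≠ x := Finset.ne_of_mem_erase hv
      have h1 : ∑ y ∈ N x, sw N (j + 1) (U.erase x) v y =
          ∑ z ∈ N v, ∑ y ∈ N x, sw N j ((U.erase v).erase x) z y := by
        rw [Finset.sum_comm]
        refine Finset.sum_congr rfl fun y _ => ?_
        rw [sw, if_pos hv, Finset.erase_right_comm]
      rw [h1, sw, if_pos hvU]
      exact Finset.sum_le_sum fun z _ => ih _ _ _ (Finset.mem_erase.2 ⟨fun h => hvx h.symm, hx⟩)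
    · have h1 : ∑ y ∈ N x, sw N (j + 1) (U.erase x) v y = 0 :=
        Finset.sum_eq_zero fun y _ => sw_notMem N _ y hv
      rw [h1]
      exact Nat.zero_le _

/-- the number of paths ending in `W` -/
def sW (N : V → Finset V) (j : ℕ) (U W : Finset V) (v : V) : ℕ := ∑ w ∈ W, sw N j U v w

/-- the bound -/
noncomputable def bnd (N : V → Finset V) (n : ℕ) (U W : Finset V) (v : V) : ℚ :=
  ∑ j ∈ Finset.range n, (sW N j U W v : ℚ) / (j + 1)!

theorem bnd_nonneg (N : V → Finset V) (n : ℕ) (U W : Finset V) (v : V) : 0 ≤ bnd N n U W v :=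
  Finset.sum_nonneg fun _ _ => by positivity

theorem bnd_le (N : V → Finset V) {n n' : ℕ} {U U' W : Finset V} {v : V} (hn : n ≤ n')
    (hU : U ⊆ U') : bnd N n U W v ≤ bnd N n' U' W v := by
  unfold bnd
  refine (Finset.sum_le_sum fun j _ => ?_).trans (Finset.sum_le_sum_of_subset_of_nonneg
    (Finset.range_subset_range.2 hn) fun _ _ _ => by positivity)
  refine div_le_div_of_nonneg_right ?_ (by positivity)
  have : sW N j U W v ≤ sW N j U' W v := Finset.sum_le_sum fun w _ => sw_mono N j U U' v w hU
  exact_mod_cast this

/-- THE INFLUENCE BOUND. -/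
theorem occ_diff (N : V → Finset V) (hsym : ∀ x y, y ∈ N x → x ∈ N y) :
    ∀ (n : ℕ) (S T : Finset V), (S ∪ T).card ≤ n → ∀ v,
      |occ N S v - occ N T v| ≤ bnd N (n + 1) (S ∪ T) (S \ T ∪ T \ S) v := by
  intro n
  induction n with
  | zero =>
    intro S T hn v
    have h1 : (S ∪ T) = ∅ := Finset.card_eq_zero.1 (Nat.le_zero.1 hn)
    have hS : S = ∅ := Finset.subset_empty.1 (h1 ▸ Finset.subset_union_left)
    have hT : T = ∅ := Finset.subset_empty.1 (h1 ▸ Finset.subset_union_right)
    rw [hS, hT, sub_self, abs_zero]
    exact bnd_nonneg _ _ _ _ _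
  | succ n ih =>
    intro S T hn v
    obtain ⟨U, hU⟩ : ∃ U, U = S ∪ T := ⟨_, rfl⟩
    obtain ⟨W, hW⟩ : ∃ W, W = S \ T ∪ T \ S := ⟨_, rfl⟩
    rw [← hU, ← hW]
    rw [← hU] at hn
    have hSU : S ⊆ U := hU ▸ Finset.subset_union_left
    have hTU : T ⊆ U := hU ▸ Finset.subset_union_right
    have hWU : W ⊆ U := by
      rw [hW]
      exact Finset.union_subset (Finset.sdiff_subset.trans hSU) (Finset.sdiff_subset.trans hTU)
    rcases U.eq_empty_or_nonempty with he | hne
    · have hS : S = ∅ := Finset.subset_empty.1 (he ▸ hSU)
      have hT : T = ∅ := Finset.subset_empty.1 (he ▸ hTU)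
      rw [hS, hT, sub_self, abs_zero]
      exact bnd_nonneg _ _ _ _ _
    have h0 : (0 : ℚ) < U.card := by exact_mod_cast hne.card_pos
    by_cases hvU : v ∈ U
    swap
    · rw [occ_notMem N (fun h => hvU (hSU h)), occ_notMem N (fun h => hvU (hTU h)), sub_self,
        abs_zero]
      exact bnd_nonneg _ _ _ _ _
    by_cases hvW : v ∈ W
    · -- trivial bound
      have h1 : (1 : ℚ) ≤ bnd N (n + 1 + 1) U W v := by
        have h2 : 1 ≤ sW N 0 U W v := by
          calc 1 = sw N 0 U v v := by unfold sw; rw [if_pos ⟨rfl, hvU⟩]
            _ ≤ ∑ w ∈ W, sw N 0 U v w :=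
              Finset.single_le_sum (f := fun w => sw N 0 U v w) (fun _ _ => Nat.zero_le _) hvW
        calc (1 : ℚ) ≤ (sW N 0 U W v : ℚ) / (0 + 1)! := by
              rw [zero_add, Nat.factorial_one, Nat.cast_one, div_one]
              exact_mod_cast h2
          _ ≤ _ := Finset.single_le_sum (f := fun j => (sW N j U W v : ℚ) / (j + 1)!)
              (fun _ _ => by positivity) (Finset.mem_range.2 (by omega))
      refine le_trans ?_ h1
      rw [abs_le]
      have := occ_nonneg' N S v
      have := occ_nonneg' N T v
      have := occ_le_one' N S v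
      have := occ_le_one' N T v
      constructor <;> linarith
    -- one step
    have hs := occ_step N (A := S) (U := U) hSU v
    have ht := occ_step N (A := T) (U := U) hTU v
    have hstep : ∀ x ∈ U, |st N S v x - st N T v x| ≤
        bnd N (n + 1) (U.erase x) W v + if x ∈ W then bnd N (n + 1) (U.erase x) (N x) v else 0 := by
      intro x hx
      have hnnW : 0 ≤ (if x ∈ W then bnd N (n + 1) (U.erase x) (N x) v else 0 : ℚ) := by
        split_ifs
        · exact bnd_nonneg _ _ _ _ _
        · exact le_refl _
      have hcard : (U.erase x).card ≤ n := by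
        rw [Finset.card_erase_of_mem hx]
        omega
      have hmemW : ∀ y, y ∈ W ↔ (y ∈ S ∧ y ∉ T) ∨ (y ∈ T ∧ y ∉ S) := by
        intro y
        rw [hW, Finset.mem_union, Finset.mem_sdiff, Finset.mem_sdiff]
      by_cases hxv : x = v
      · have h1 : st N S v x = st N T v x := by
          rw [hxv]
          have h2 : (v ∈ S ↔ v ∈ T) := by
            have := (hmemW v).not.1 hvW
            tauto
          have hvS : v ∈ S := by
            rw [hU, Finset.mem_union] at hvU
            tauto
          rw [st, st, if_pos hvS, if_pos (h2.1 hvS), if_pos rfl, if_pos rfl]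
        rw [h1, sub_self, abs_zero]
        exact add_nonneg (bnd_nonneg _ _ _ _ _) hnnW
      · -- general comparison
        have gen : ∀ S' T' : Finset V, S' ⊆ S → T' ⊆ T → x ∉ S' → x ∉ T' →
            (∀ y, y ∈ S' \ T' ∪ T' \ S' → y ∈ W ∨ (x ∈ W ∧ y ∈ N x)) →
            |occ N S' v - occ N T' v| ≤ bnd N (n + 1) (U.erase x) W v +
              if x ∈ W then bnd N (n + 1) (U.erase x) (N x) v else 0 := by
          intro S' T' hS' hT' hxS' hxT' hWW
          have hsub : S' ∪ T' ⊆ U.erase x := by
            intro y hy
            rw [Finset.mem_union] at hy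
            rw [Finset.mem_erase]
            rcases hy with hy | hy
            · exact ⟨fun h => hxS' (h ▸ hy), hSU (hS' hy)⟩
            · exact ⟨fun h => hxT' (h ▸ hy), hTU (hT' hy)⟩
          refine (ih S' T' ((Finset.card_le_card hsub).trans hcard) v).trans ?_
          refine (bnd_le N (le_refl _) hsub).trans ?_
          by_cases hxW : x ∈ W
          · rw [if_pos hxW]
            unfold bnd
            rw [← Finset.sum_add_distrib]
            refine Finset.sum_le_sum fun j _ => ?_
            rw [← add_div]
            refine div_le_div_of_nonneg_right ?_ (by positivity)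
            have h3 : sW N j (U.erase x) (S' \ T' ∪ T' \ S') v ≤
                sW N j (U.erase x) W v + sW N j (U.erase x) (N x) v := by
              unfold sW
              calc ∑ w ∈ S' \ T' ∪ T' \ S', sw N j (U.erase x) v w
                  ≤ ∑ w ∈ W ∪ N x, sw N j (U.erase x) v w := by
                    refine Finset.sum_le_sum_of_subset ?_
                    intro y hy
                    rw [Finset.mem_union]
                    rcases hWW y hy with h | h
                    · exact Or.inl h
                    · exact Or.inr h.2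
                _ ≤ _ := by
                    rw [← Finset.sum_union_inter]
                    exact Nat.le_add_right _ _
            exact_mod_cast h3
          · rw [if_neg hxW, add_zero]
            unfold bnd
            refine Finset.sum_le_sum fun j _ => ?_
            refine div_le_div_of_nonneg_right ?_ (by positivity)
            have h3 : sW N j (U.erase x) (S' \ T' ∪ T' \ S') v ≤ sW N j (U.erase x) W v := by
              unfold sW
              refine Finset.sum_le_sum_of_subset ?_
              intro y hy
              rcases hWW y hy with h | h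
              · exact h
              · exact absurd h.1 hxW
            exact_mod_cast h3
        have hWx := hmemW x
        by_cases hxS : x ∈ S
        · by_cases hxT : x ∈ T
          · rw [st, st, if_pos hxS, if_pos hxT, if_neg hxv, if_neg hxv]
            refine gen _ _ Finset.sdiff_subset Finset.sdiff_subset
              (by simp [cn]) (by simp [cn]) ?_
            intro y hy
            left
            rw [hmemW]
            simp only [Finset.mem_union, Finset.mem_sdiff] at hy
            tauto
          · rw [st, st, if_pos hxS, if_neg hxT, if_neg hxv]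
            refine gen _ _ Finset.sdiff_subset (Finset.Subset.refl _) (by simp [cn]) hxT ?_
            intro y hy
            simp only [Finset.mem_union, Finset.mem_sdiff, mem_cn] at hy
            by_cases hyx : y = x
            · left; rw [hyx, hWx]; tauto
            · rw [hmemW, hWx]; tauto
        · have hxT : x ∈ T := by
            rw [hU, Finset.mem_union] at hx
            tauto
          rw [st, st, if_neg hxS, if_pos hxT, if_neg hxv]
          refine gen _ _ (Finset.Subset.refl _) Finset.sdiff_subset hxS (by simp [cn]) ?_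
          intro y hy
          simp only [Finset.mem_union, Finset.mem_sdiff, mem_cn] at hy
          by_cases hyx : y = x
          · left; rw [hyx, hWx]; tauto
          · rw [hmemW, hWx]; tauto
    -- summation
    have hsum : |occ N S v - occ N T v| * U.card ≤ ∑ x ∈ U, (bnd N (n + 1) (U.erase x) W v +
        if x ∈ W then bnd N (n + 1) (U.erase x) (N x) v else 0) := by
      calc |occ N S v - occ N T v| * U.card = |(occ N S v - occ N T v) * U.card| := by
            rw [abs_mul, abs_of_pos h0]
        _ = |∑ x ∈ U, (st N S v x - st N T v x)| := by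
            rw [sub_mul, hs, ht, Finset.sum_sub_distrib]
        _ ≤ ∑ x ∈ U, |st N S v x - st N T v x| := Finset.abs_sum_le_sum_abs _ _
        _ ≤ _ := Finset.sum_le_sum hstep
    have hS1 : ∑ x ∈ U, bnd N (n + 1) (U.erase x) W v =
        ∑ j ∈ Finset.range (n + 1), ((U.card : ℚ) - (j + 1)) * (sW N j U W v : ℚ) / (j + 1)! := by
      unfold bnd
      rw [Finset.sum_comm]
      refine Finset.sum_congr rfl fun j _ => ?_
      rw [← Finset.sum_div]
      congr 1
      have h1 : ∑ x ∈ U, sW N j (U.erase x) W v + (j + 1) * sW N j U W v = U.card * sW N j U W v := by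
        unfold sW
        rw [Finset.sum_comm, Finset.mul_sum, Finset.mul_sum, ← Finset.sum_add_distrib]
        exact Finset.sum_congr rfl fun w _ => sw_delete N j U v w
      have h2 : (∑ x ∈ U, (sW N j (U.erase x) W v : ℚ)) + (j + 1) * (sW N j U W v : ℚ) =
          U.card * (sW N j U W v : ℚ) := by exact_mod_cast h1
      rw [sub_mul]
      linarith
    have hS2 : ∑ x ∈ U, (if x ∈ W then bnd N (n + 1) (U.erase x) (N x) v else 0) ≤
        ∑ j ∈ Finset.range (n + 1), (sW N (j + 1) U W v : ℚ) / (j + 1)! := by
      have h1 : ∑ x ∈ U, (if x ∈ W then bnd N (n + 1) (U.erase x) (N x) v else 0) =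
          ∑ x ∈ W, bnd N (n + 1) (U.erase x) (N x) v := by
        rw [← Finset.sum_filter]
        refine Finset.sum_congr ?_ fun _ _ => rfl
        ext y
        rw [Finset.mem_filter]
        exact ⟨fun h => h.2, fun h => ⟨hWU h, h⟩⟩
      rw [h1]
      unfold bnd
      rw [Finset.sum_comm]
      refine Finset.sum_le_sum fun j _ => ?_
      rw [← Finset.sum_div]
      refine div_le_div_of_nonneg_right ?_ (by positivity)
      have h2 : ∑ x ∈ W, sW N j (U.erase x) (N x) v ≤ sW N (j + 1) U W v := by
        unfold sW
        exact Finset.sum_le_sum fun x hx => sw_extend N hsym j U v x (hWU hx)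
      exact_mod_cast h2
    have hfin : ∑ j ∈ Finset.range (n + 1), ((U.card : ℚ) - (j + 1)) * (sW N j U W v : ℚ) / (j + 1)! +
        ∑ j ∈ Finset.range (n + 1), (sW N (j + 1) U W v : ℚ) / (j + 1)! ≤
        bnd N (n + 1 + 1) U W v * U.card := by
      have e1 : ∑ j ∈ Finset.range (n + 1), (sW N (j + 1) U W v : ℚ) / (j + 1)! =
          ∑ j ∈ Finset.range (n + 2), (if j = 0 then 0 else (j + 1 : ℚ)) *
            (sW N j U W v : ℚ) / (j + 1)! := by
        rw [Finset.sum_range_succ' _ (n + 1), if_pos rfl, zero_mul, zero_div, add_zero]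
        refine Finset.sum_congr rfl fun j _ => ?_
        rw [if_neg (Nat.succ_ne_zero j), Nat.factorial_succ (j + 1)]
        have h3 : ((j + 1 : ℕ)! : ℚ) ≠ 0 := by positivity
        have h4 : ((j + 1 + 1 : ℕ) : ℚ) ≠ 0 := by positivity
        push_cast
        field_simp
      have e2 : ∑ j ∈ Finset.range (n + 1), ((U.card : ℚ) - (j + 1)) * (sW N j U W v : ℚ) / (j + 1)! =
          ∑ j ∈ Finset.range (n + 2), ((U.card : ℚ) - (j + 1)) * (sW N j U W v : ℚ) / (j + 1)! -
            ((U.card : ℚ) - ((n + 1 : ℕ) + 1)) * (sW N (n + 1) U W v : ℚ) / ((n + 1) + 1)! := by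
        rw [Finset.sum_range_succ _ (n + 1)]
        ring
      have e3 : ((U.card : ℚ) - ((n + 1 : ℕ) + 1)) * (sW N (n + 1) U W v : ℚ) / ((n + 1) + 1)! = 0 := by
        have h5 : sW N (n + 1) U W v = 0 := by
          unfold sW
          refine Finset.sum_eq_zero fun w _ => ?_
          have h6 := sw_delete N (n + 1) U v w
          by_contra h7
          have h8 : (n + 1 + 1) * sw N (n + 1) U v w ≤ U.card * sw N (n + 1) U v w := by
            rw [← h6]
            exact Nat.le_add_left _ _
          have h9 := Nat.le_of_mul_le_mul_right h8 (Nat.pos_of_ne_zero h7)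
          omega
        rw [h5, Nat.cast_zero, mul_zero, zero_div]
      rw [e1, e2, e3, sub_zero, ← Finset.sum_add_distrib]
      unfold bnd
      rw [Finset.sum_mul]
      refine Finset.sum_le_sum fun j _ => ?_
      rw [← add_div, ← add_mul, div_mul_eq_mul_div]
      refine div_le_div_of_nonneg_right ?_ (by positivity)
      rw [mul_comm (sW N j U W v : ℚ)]
      refine mul_le_mul_of_nonneg_right ?_ (by positivity)
      split_ifs with hj
      · rw [add_zero]
        have : (0 : ℚ) ≤ j := by positivity
        linarith
      · linarith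
    have hall : |occ N S v - occ N T v| * U.card ≤ bnd N (n + 1 + 1) U W v * U.card := by
      refine hsum.trans ?_
      rw [Finset.sum_add_distrib, hS1]
      linarith
    exact le_of_mul_le_mul_right hall h0

end Pool.Agent.H98.RSA
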