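import Pool.Agent.H98.RSA.Cert

/-!
# Random sequential adsorption (MP_eaa50a_pr): the symmetries of the square and of the strip
-/

set_option autoImplicit false
set_option maxRecDepth 100000

open Finset

namespace Pool.Agent.H98.RSA

/-- packed lists -/
def pkl (b : ℕ) : List ℕ → ℕ
  | [] => 0
  | x :: l => x ||| (pkl b l <<< b)

theorem src_big (c : ℕ) (hc : c < 2 ^ 128) (j : ℕ) (hj : 256 ≤ j) : ∀ l : List (ℕ × ℕ),
    (∀ q ∈ l, q.1 < 2 ^ 128 ∧ q.2 ≤ 128) → src c l j = [] := by
  have hbig : ∀ m i : ℕ, m < 2 ^ 128 → 128 ≤ i → m.testBit i = false := fun m i hm hi =>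
    Nat.testBit_lt_two_pow (hm.trans_le (Nat.pow_le_pow_right (by norm_num) hi))
  intro l
  induction l with
  | nil =>
    intro _
    unfold src
    rw [hbig c j hc (by omega)]
    simp
  | cons q l ih =>
    obtain ⟨M, s⟩ := q
    intro h
    have h1 := h (M, s) List.mem_cons_self
    unfold src
    rw [ih fun q hq => h q (List.mem_cons_of_mem _ hq), hbig M j h1.1 (by omega),
      hbig M (j - s) h1.1 (by have := h1.2; simp only at this; omega)]
    simp

/-- the table of a symmetry -/
def okS (R c : ℕ) (l : List (ℕ × ℕ)) (τ : ℕ → ℕ) : Bool :=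
  (List.range 256).all fun j => if R.testBit j then src c l j == [τ j] else src c l j == []

/-- the adjacency is preserved -/
def okA (W R : ℕ) (τ : ℕ → ℕ) : Bool :=
  (List.range 128).all fun x => (List.range 128).all fun y =>
    !(R.testBit x) || !(R.testBit y) ||
      (decide (τ y = τ x + 1 ∨ τ x = τ y + 1 ∨ τ y = τ x + W ∨ τ x = τ y + W) ==
        decide (y = x + 1 ∨ x = y + 1 ∨ y = x + W ∨ x = y + W))

/-- an involution of the region -/
def okI (R : ℕ) (τ : ℕ → ℕ) : Bool :=
  (List.range 128).all fun x => !(R.testBit x) || (R.testBit (τ x) && (τ (τ x) == x))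

theorem sym_of {W R o c : ℕ} {l : List (ℕ × ℕ)} (τ : ℕ → ℕ) (hR : R < 2 ^ 128) (hc : c < 2 ^ 128)
    (hl : ∀ q ∈ l, q.1 < 2 ^ 128 ∧ q.2 ≤ 128) (h1 : okS R c l τ = true) (h2 : okI R τ = true)
    (h3 : τ o = o) (h4 : okA W R τ = true) (m : ℕ) (hm : F m ⊆ F R) (hom : o ∈ F m) :
    F (nw c l m) ⊆ F R ∧ o ∈ F (nw c l m) ∧
    occ (N1 W) (F (nw c l m)) o = occ (N1 W) (F m) o ∧ (F (nw c l m)).card = (F m).card := by
  have hlt : ∀ j, j ∈ F R → j < 128 := by
    intro j hj
    rw [mem_F] at hj
    by_contra h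
    have := Nat.testBit_lt_two_pow (hR.trans_le (Nat.pow_le_pow_right (by norm_num) (not_lt.1 h)))
    rw [this] at hj
    exact absurd hj (by simp)
  have h1' : ∀ j < 256, (if R.testBit j then src c l j == [τ j] else src c l j == []) = true := by
    unfold okS at h1
    rw [List.all_eq_true] at h1
    intro j hj
    exact h1 j (List.mem_range.2 hj)
  refine nw_sym τ ?_ ?_ ?_ h3 ?_ m hm hom
  · intro j hj
    by_cases h : j < 256
    · have h5 := h1' j h
      rw [if_neg (fun h6 => hj (mem_F.2 h6))] at h5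
      exact eq_of_beq h5
    · exact src_big c hc j (not_lt.1 h) l hl
  · intro j hj
    have h5 := h1' j (by have := hlt j hj; omega)
    rw [if_pos (mem_F.1 hj)] at h5
    exact eq_of_beq h5
  · intro j hj
    unfold okI at h2
    rw [List.all_eq_true] at h2
    have h5 := h2 j (List.mem_range.2 (hlt j hj))
    rw [mem_F.1 hj] at h5
    simp only [Bool.not_true, Bool.false_or, Bool.and_eq_true] at h5
    exact ⟨mem_F.2 h5.1, eq_of_beq h5.2⟩
  · intro x hx y hy
    unfold okA at h4
    rw [List.all_eq_true] at h4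
    have h5 := h4 x (List.mem_range.2 (hlt x hx))
    rw [List.all_eq_true] at h5
    have h6 := h5 y (List.mem_range.2 (hlt y hy))
    rw [mem_F.1 hx, mem_F.1 hy] at h6
    simp only [Bool.not_true, Bool.false_or] at h6
    have h7 := eq_of_beq h6
    rw [mem_N1, mem_N1]
    exact decide_eq_decide.1 h7

/-! ### The square -/

def rx (m : ℕ) : ℕ := nw 0x1004010040100401004010 [(0x100401004010040100401, 8), (0x200802008020080200802, 6), (0x401004010040100401004, 4), (0x802008020080200802008, 2)] m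

def ry (m : ℕ) : ℕ := nw 0x1ff0000000000 [(0x1ff, 80), (0x7fc00, 60), (0x1ff00000, 40), (0x7fc0000000, 20)] m

def tr (m : ℕ) : ℕ := nw 0x10020040080100200400801 [(0x100, 72), (0x40080, 63), (0x10020040, 54), (0x4008010020, 45), (0x1002004008010, 36), (0x400801002004008, 27), (0x100200400801002004, 18), (0x40080100200400801002, 9)] m

/-- the symmetries of the square -/
def i8 (g m : ℕ) : ℕ :=
  let m1 := bif Nat.beq (g % 2) 1 then tr m else m
  let m2 := bif Nat.beq (g / 2 % 2) 1 then rx m1 else m1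
  bif Nat.beq (g / 4 % 2) 1 then ry m2 else m2

/-- the parameters of the square lattice -/
def PP : Par where
  W := 10
  p := 0x100E01
  B := 96
  o := 44
  R := 0x1ff7fdff7fdff7fdff7fdff
  G := 8
  img := i8

theorem pat_of {W p : ℕ} (hp : p < 2 ^ 64)
    (h : (List.range 64).all (fun i => p.testBit i ==
      decide (i = 0 ∨ i = W - 1 ∨ i = W ∨ i = W + 1 ∨ i = 2 * W)) = true) (hW : W ≤ 30) :
    Pat W p := by
  intro i
  by_cases hi : i < 64
  · rw [List.all_eq_true] at h
    have h1 := eq_of_beq (h i (List.mem_range.2 hi))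
    rw [h1, decide_eq_true_eq]
  · rw [Nat.testBit_lt_two_pow (hp.trans_le (Nat.pow_le_pow_right (by norm_num) (not_lt.1 hi)))]
    constructor
    · intro h1
      exact absurd h1 (by simp)
    · intro h1
      omega

theorem pat_PP : Pat PP.W PP.p := pat_of (by decide) (by decide +kernel) (by decide)

theorem ite_spec {Q : ℕ → Prop} {b : Bool} {x y : ℕ} (hx : Q x) (hy : Q y) :
    Q (bif b then x else y) := by
  cases b
  · exact hy
  · exact hx

theorem sym_PP : Sym PP := by
  intro g m hm hom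
  have e : ∀ f : ℕ → ℕ, (∀ m, F m ⊆ F PP.R → PP.o ∈ F m → F (f m) ⊆ F PP.R ∧ PP.o ∈ F (f m) ∧
      occ (N1 PP.W) (F (f m)) PP.o = occ (N1 PP.W) (F m) PP.o ∧ (F (f m)).card = (F m).card) →
      ∀ (b : Bool) (m' : ℕ), (F m' ⊆ F PP.R ∧ PP.o ∈ F m' ∧
        occ (N1 PP.W) (F m') PP.o = occ (N1 PP.W) (F m) PP.o ∧ (F m').card = (F m).card) →
      (F (bif b then f m' else m') ⊆ F PP.R ∧ PP.o ∈ F (bif b then f m' else m') ∧
        occ (N1 PP.W) (F (bif b then f m' else m')) PP.o = occ (N1 PP.W) (F m) PP.o ∧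
        (F (bif b then f m' else m')).card = (F m).card) := by
    intro f hf b m' h
    cases b
    · exact h
    · obtain ⟨h1, h2, h3, h4⟩ := hf m' h.1 h.2.1
      exact ⟨h1, h2, h3.trans h.2.2.1, h4.trans h.2.2.2⟩
  have htr : ∀ m, F m ⊆ F PP.R → PP.o ∈ F m → F (tr m) ⊆ F PP.R ∧ PP.o ∈ F (tr m) ∧
      occ (N1 PP.W) (F (tr m)) PP.o = occ (N1 PP.W) (F m) PP.o ∧ (F (tr m)).card = (F m).card :=
    fun m hm hom => sym_of (W := PP.W) (R := PP.R) (o := PP.o) (fun j => 10 * (j % 10) + j / 10)
      (by decide) (by decide) (by decide) (by decide +kernel) (by decide +kernel) (by decide)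
      (by decide +kernel) m hm hom
  have hrx : ∀ m, F m ⊆ F PP.R → PP.o ∈ F m → F (rx m) ⊆ F PP.R ∧ PP.o ∈ F (rx m) ∧
      occ (N1 PP.W) (F (rx m)) PP.o = occ (N1 PP.W) (F m) PP.o ∧ (F (rx m)).card = (F m).card :=
    fun m hm hom => sym_of (W := PP.W) (R := PP.R) (o := PP.o)
      (fun j => 10 * (j / 10) + (8 - j % 10))
      (by decide) (by decide) (by decide) (by decide +kernel) (by decide +kernel) (by decide)
      (by decide +kernel) m hm hom
  have hry : ∀ m, F m ⊆ F PP.R → PP.o ∈ F m → F (ry m) ⊆ F PP.R ∧ PP.o ∈ F (ry m) ∧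
      occ (N1 PP.W) (F (ry m)) PP.o = occ (N1 PP.W) (F m) PP.o ∧ (F (ry m)).card = (F m).card :=
    fun m hm hom => sym_of (W := PP.W) (R := PP.R) (o := PP.o)
      (fun j => 10 * (8 - j / 10) + j % 10)
      (by decide) (by decide) (by decide) (by decide +kernel) (by decide +kernel) (by decide)
      (by decide +kernel) m hm hom
  have h1 := e tr htr (Nat.beq (g % 2) 1) m ⟨hm, hom, rfl, rfl⟩
  have h2 := e rx hrx (Nat.beq (g / 2 % 2) 1) _ h1
  have h3 := e ry hry (Nat.beq (g / 4 % 2) 1) _ h2
  exact h3.2.2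

/-! ### The strip of width 4 -/

def sx (m : ℕ) : ℕ := nw 0x20020020020000 [(0x1001001001000, 10), (0x2002002002000, 8), (0x4004004004000, 6), (0x8008008008000, 4), (0x10010010010000, 2)] m

/-- the symmetry of the strip -/
def i2 (g m : ℕ) : ℕ := bif Nat.beq g 1 then sx m else m

/-- the parameters of the strip of width 4, row 1 -/
def P1 : Par where
  W := 12
  p := 0x1003801
  B := 64
  o := 17
  R := 0x7ff7ff7ff7ff000
  G := 2
  img := i2

/-- the parameters of the strip of width 4, row 2 -/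
def P2 : Par where
  W := 12
  p := 0x1003801
  B := 64
  o := 29
  R := 0x7ff7ff7ff7ff000
  G := 2
  img := i2

theorem pat_P1 : Pat P1.W P1.p := pat_of (by decide) (by decide +kernel) (by decide)

theorem pat_P2 : Pat P2.W P2.p := pat_of (by decide) (by decide +kernel) (by decide)

theorem sym_P1 : Sym P1 := by
  intro g m hm hom
  have hs := sym_of (W := P1.W) (R := P1.R) (o := P1.o) (c := 0x20020020020000)
    (l := [(0x1001001001000, 10), (0x2002002002000, 8), (0x4004004004000, 6), (0x8008008008000, 4),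
      (0x10010010010000, 2)]) (fun j => 12 * (j / 12) + (10 - j % 12))
    (by decide) (by decide) (by decide) (by decide +kernel) (by decide +kernel) (by decide)
    (by decide +kernel) m hm hom
  change occ (N1 P1.W) (F (bif Nat.beq g 1 then sx m else m)) P1.o = _ ∧
    (F (bif Nat.beq g 1 then sx m else m)).card = _
  cases Nat.beq g 1
  · exact ⟨rfl, rfl⟩
  · exact hs.2.2

theorem sym_P2 : Sym P2 := by
  intro g m hm hom
  have hs := sym_of (W := P2.W) (R := P2.R) (o := P2.o) (c := 0x20020020020000)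
    (l := [(0x1001001001000, 10), (0x2002002002000, 8), (0x4004004004000, 6), (0x8008008008000, 4),
      (0x10010010010000, 2)]) (fun j => 12 * (j / 12) + (10 - j % 12))
    (by decide) (by decide) (by decide) (by decide +kernel) (by decide +kernel) (by decide)
    (by decide +kernel) m hm hom
  change occ (N1 P2.W) (F (bif Nat.beq g 1 then sx m else m)) P2.o = _ ∧
    (F (bif Nat.beq g 1 then sx m else m)).card = _
  cases Nat.beq g 1
  · exact ⟨rfl, rfl⟩
  · exact hs.2.2

end Pool.Agent.H98.RSA
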